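import Mathlib

/-! Definitions for Artin's primitive root conjecture on average over short ranges. -/

namespace Pool.Agent.H386R2.Artin

open Finset

/-- the number of primes `p ≤ x` for which `n` is a primitive root -/
noncomputable def NA (n : ℤ) (x : ℕ) : ℕ :=
  #{p ∈ range (x + 1) | p.Prime ∧ orderOf (n : ZMod p) = p - 1}

/-- Artin's constant `∏_p (1 - 1/(p(p-1)))` -/
noncomputable def artinC : ℝ :=
  ∏' p : Nat.Primes, (1 - 1 / (((p : ℕ) : ℝ) * (((p : ℕ) : ℝ) - 1)))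

/-- the primes `p ≤ x` -/
def PP (x : ℕ) : Finset ℕ := (range (x + 1)).filter Nat.Prime

/-- all non-principal characters modulo `p` have sum at most `M` over `E` -/
def Good (E : Finset ℕ) (M : ℝ) (p : ℕ) : Prop :=
  ∀ χ : DirichletCharacter ℂ p, χ ≠ 1 → ‖∑ q ∈ E, χ (q : ZMod p)‖ ≤ M

/-- `∏_{l ∣ n, l ≤ L} (1 - 1/l)` -/
noncomputable def gL (L n : ℕ) : ℝ := ∏ l ∈ n.primeFactors.filter (fun l => l ≤ L), (1 - 1 / (l : ℝ))

/-- `∑_{l ∣ n, l > L} 1/l` -/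
noncomputable def hL (L n : ℕ) : ℝ := ∑ l ∈ n.primeFactors.filter (fun l => L < l), 1 / (l : ℝ)

/-- `∏_{l ≤ L} (1 - 1/(l(l-1)))` -/
noncomputable def artinL (L : ℕ) : ℝ := ∏ l ∈ PP L, (1 - 1 / ((l : ℝ) * ((l : ℝ) - 1)))

end Pool.Agent.H386R2.Artin
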