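import Mathlib
import Pool.Agent.H386R2.Artin.Defs

/-! Stubs (statements only, as `Prop`s) of the modules of the Artin-on-average project. -/

namespace Pool.Agent.H386R2.Artin

open Finset Filter Topology
open scoped Nat

open Classical in
/-- T1: large sieve for an arbitrary set `E` of primes `≤ y` (r-th powers) -/
def BadCount : Prop := ∀ (E : Finset ℕ) (y x r : ℕ) (M : ℝ), (∀ q ∈ E, q.Prime ∧ q ≤ y) → 0 < M →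
  x ^ 2 ≤ y ^ r →
    (#{p ∈ PP x | ¬ Good E M p} : ℝ) * M ^ (2 * r) ≤ 12 * (y : ℝ) ^ r * (r ! : ℝ) * (#E : ℝ) ^ r

open Classical in
/-- T2: the bad primes are few (parameters) -/
def FewBad : Prop := ∀ δ : ℝ, 0 < δ → δ ≤ 1 → ∃ c : ℝ, 0 < c ∧ ∃ η : ℝ, 0 < η ∧ ∃ x₀ : ℕ,
  ∀ x : ℕ, x₀ ≤ x → ∀ y : ℕ, (Real.log x) ^ (2 + δ) ≤ (y : ℝ) → y ≤ x →
    ∀ E : Finset ℕ, (∀ q ∈ E, q.Prime ∧ q ≤ y) →
      (Nat.primeCounting y : ℝ) / (Real.log x) ^ c ≤ #E →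
        (#{p ∈ PP x | ¬ Good E (#E / (Real.log x) ^ c) p} : ℝ) ≤ (x : ℝ) ^ (1 - η)

/-- T3: local count -/
def LocalCount : Prop := ∀ (p : ℕ), p.Prime → ∀ (E : Finset ℕ) (M : ℝ) (m : ℤ) (L : ℕ),
  (∀ q ∈ E, q.Prime) → 0 ≤ M → Good E M p → ¬ (p : ℤ) ∣ m →
    |(#(E.filter (fun q : ℕ => orderOf ((m * (q : ℤ) : ℤ) : ZMod p) = p - 1)) : ℝ) - #E * gL L (p - 1)| ≤
      1 + 2 ^ L * M + #E * hL L (p - 1) + (p - 1).primeFactors.card * M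

/-- T4: average of `gL` over shifted primes -/
def SumG : Prop := ∀ L : ℕ, Tendsto (fun x : ℕ => (∑ p ∈ PP x, gL L (p - 1)) /
  (Nat.primeCounting x : ℝ)) atTop (𝓝 (artinL L))

/-- T5: average of `hL` over shifted primes -/
def SumH : Prop := ∃ C : ℝ, 0 < C ∧ ∀ L : ℕ, 1 ≤ L → ∃ x₀ : ℕ, ∀ x : ℕ, x₀ ≤ x →
  ∑ p ∈ PP x, hL L (p - 1) ≤ C / L * (Nat.primeCounting x : ℝ)

open Classical in
/-- T6: few primes with `ω(p-1)` large -/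
def OmegaLarge : Prop := ∃ x₀ : ℕ, ∀ x : ℕ, x₀ ≤ x →
  (#{p ∈ PP x | 5 * Real.log (Real.log x) < ((p - 1).primeFactors.card : ℝ)} : ℝ) ≤
    x / (Real.log x) ^ 2

/-- T7: the partial products of Artin's constant converge -/
def ArtinLim : Prop := Tendsto artinL atTop (𝓝 artinC)

open Classical in
/-- T8: few smooth numbers -/
def SmoothFew : Prop := ∀ ε : ℝ, 0 < ε → ∃ u : ℕ, 1 ≤ u ∧ ∃ N₀ : ℕ, ∀ N : ℕ, N₀ ≤ N →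
  (#{a ∈ Icc 1 N | ∀ p : ℕ, p.Prime → p ∣ a → (p : ℝ) ≤ (N : ℝ) ^ (1 / (u : ℝ))} : ℝ) ≤ ε * N

/-- M5: the average over an arbitrary dense set of primes -/
def Average : Prop := ∀ δ : ℝ, 0 < δ → δ ≤ 1 → ∃ c : ℝ, 0 < c ∧ ∀ ε : ℝ, 0 < ε → ∃ x₀ : ℕ,
  ∀ x : ℕ, x₀ ≤ x → ∀ y : ℕ, (Real.log x) ^ (2 + δ) ≤ (y : ℝ) → y ≤ x →
    ∀ E : Finset ℕ, (∀ q ∈ E, q.Prime ∧ q ≤ y) →
      (Nat.primeCounting y : ℝ) / (Real.log x) ^ c ≤ #E →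
        ∀ m : ℤ, m ≠ 0 → Real.log |(m : ℝ)| ≤ √x →
          |∑ q ∈ E, (NA (m * q) x : ℝ) - artinC * Nat.primeCounting x * #E| ≤
            ε * Nat.primeCounting x * #E

open Classical in
/-- M6: primes (and their multiples by a fixed integer) -/
def PrimesResult : Prop := ∀ δ : ℝ, 0 < δ → ∃ c : ℝ, 0 < c ∧ ∀ ε : ℝ, 0 < ε → ∃ x₀ : ℕ,
  ∀ x : ℕ, x₀ ≤ x → ∀ y : ℕ, (Real.log x) ^ (2 + δ) ≤ (y : ℝ) → y ≤ x →
    ∀ m : ℤ, m ≠ 0 → Real.log |(m : ℝ)| ≤ √x →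
      (#{q ∈ PP y | ε < |(NA (m * q) x : ℝ) / Nat.primeCounting x - artinC|} : ℝ) ≤
        (Nat.primeCounting y : ℝ) / (Real.log x) ^ c

open Classical in
/-- T9: integers (from M6 and T8) -/
def IntegersResult : Prop := ∀ ε : ℝ, 0 < ε → ∃ C : ℝ, 0 < C ∧ ∃ x₀ : ℕ,
  ∀ x : ℕ, x₀ ≤ x → ∀ N : ℕ, (Real.log x) ^ C ≤ (N : ℝ) → N ≤ x →
      (#{a ∈ Icc 1 N | ε < |(NA a x : ℝ) / Nat.primeCounting x - artinC|} : ℝ) ≤ ε * N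

end Pool.Agent.H386R2.Artin
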