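import Mathlib
import Pool.Agent.H386R2.Artin.Stubs

/-! T7: the partial products of Artin's constant converge to Artin's constant. -/

namespace Pool.Agent.H386R2.Artin

open Finset Filter Topology

theorem summable_artin_factor :
    Summable fun p : Nat.Primes => -(1 / (((p : ℕ) : ℝ) * (((p : ℕ) : ℝ) - 1))) := by
  have h1 : Summable fun n : ℕ => 2 * (1 / (n : ℝ) ^ 2) :=
    (Real.summable_one_div_nat_pow.mpr (by norm_num)).mul_left 2
  have h2 : Summable fun p : Nat.Primes => 2 * (1 / ((p : ℕ) : ℝ) ^ 2) :=
    h1.comp_injective (i := fun p : Nat.Primes => (p : ℕ)) Subtype.val_injective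
  refine Summable.of_norm_bounded h2 ?_
  intro p
  have hp : (2 : ℝ) ≤ ((p : ℕ) : ℝ) := by exact_mod_cast p.2.two_le
  rw [norm_neg, Real.norm_of_nonneg (by
    have : (0 : ℝ) ≤ ((p : ℕ) : ℝ) - 1 := by linarith
    positivity)]
  rw [mul_one_div, div_le_div_iff₀ (by nlinarith) (by positivity)]
  nlinarith

theorem multipliable_artin :
    Multipliable fun p : Nat.Primes => (1 - 1 / (((p : ℕ) : ℝ) * (((p : ℕ) : ℝ) - 1))) := by
  have h := Real.multipliable_one_add_of_summable summable_artin_factor
  simpa only [← sub_eq_add_neg] using h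

theorem artinLim : ArtinLim := by
  unfold ArtinLim
  have h := multipliable_artin.hasProd
  have hs : Tendsto (fun L : ℕ => ((PP L).subtype Nat.Prime : Finset Nat.Primes)) atTop atTop := by
    apply tendsto_atTop_finset_of_monotone
    · intro a b hab p hp
      rw [Finset.mem_subtype] at hp ⊢
      unfold PP at hp ⊢
      rw [Finset.mem_filter, Finset.mem_range] at hp ⊢
      exact ⟨by omega, hp.2⟩
    · intro p
      refine ⟨(p : ℕ), ?_⟩
      rw [Finset.mem_subtype]
      unfold PP
      rw [Finset.mem_filter, Finset.mem_range]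
      exact ⟨by omega, p.2⟩
  have h2 := h.comp hs
  unfold artinC
  refine h2.congr ?_
  intro L
  simp only [Function.comp]
  have h3 := Finset.prod_subtype_eq_prod_filter (s := PP L) (p := Nat.Prime)
    (f := fun l : ℕ => (1 - 1 / ((l : ℝ) * ((l : ℝ) - 1))))
  refine h3.trans ?_
  unfold artinL PP
  rw [Finset.filter_filter]
  simp

end Pool.Agent.H386R2.Artin
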