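import Mathlib
import Pool.Agent.H386R2.Artin.Stubs
import Pool.Agent.Cov.PNT

/-! The bad primes are few: choice of parameters in the large sieve. -/

namespace Pool.Agent.H386R2.Artin

open Finset Filter Topology
open scoped Nat

lemma pi_lower : ∃ y₀ : ℕ, 3 ≤ y₀ ∧ ∀ y : ℕ, y₀ ≤ y →
    (y : ℝ) / (2 * Real.log y) ≤ Nat.primeCounting y := by
  have h1 := (tendsto_order.1 Pool.Agent.Cov.PNT.pi_tendsto).1 (1/2) (by norm_num)
  have h2 := (tendsto_natCast_atTop_atTop (R := ℝ)).eventually h1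
  obtain ⟨y₀, h3⟩ := eventually_atTop.1 h2
  refine ⟨max y₀ 3, le_max_right _ _, fun y hy => ?_⟩
  have h4 := h3 y (le_trans (le_max_left _ _) hy)
  have h5 : (3 : ℝ) ≤ y := by exact_mod_cast le_trans (le_max_right _ _) hy
  simp only [Nat.floor_natCast] at h4
  have h6 : 0 < Real.log y := Real.log_pos (by linarith)
  rw [lt_div_iff₀ (by linarith)] at h4
  rw [div_le_iff₀ (by positivity)]
  nlinarith

lemma params (δ : ℝ) (hδ : 0 < δ) : ∀ᶠ x : ℕ in atTop,
    1 ≤ Real.log (Real.log x) ∧ Real.log 6 / Real.log (Real.log x) ≤ δ / 24 ∧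
    Real.log 72 + 2 * Real.log (Real.log x) ≤ δ / 24 * Real.log x := by
  have hx : Tendsto (fun x : ℕ => Real.log (x : ℝ)) atTop atTop :=
    Real.tendsto_log_atTop.comp tendsto_natCast_atTop_atTop
  have hxx : Tendsto (fun x : ℕ => Real.log (Real.log (x : ℝ))) atTop atTop :=
    Real.tendsto_log_atTop.comp hx
  have h1 := hxx.eventually_ge_atTop (max 1 (24 * Real.log 6 / δ))
  have h2 : Tendsto (fun t : ℝ => (Real.log 72 + 2 * Real.log t) / t) atTop (𝓝 0) := by
    have h3 : Tendsto (fun t : ℝ => Real.log t / t) atTop (𝓝 0) := by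
      simpa using Real.isLittleO_log_id_atTop.tendsto_div_nhds_zero
    have h4 : Tendsto (fun t : ℝ => Real.log 72 / t) atTop (𝓝 0) :=
      tendsto_const_nhds.div_atTop tendsto_id
    have h5 := h4.add (h3.const_mul 2)
    simp only [mul_zero, add_zero] at h5
    refine h5.congr fun t => ?_
    ring
  have h6 := (h2.comp hx).eventually (gt_mem_nhds (show (0:ℝ) < δ / 24 by positivity))
  have h7 := hx.eventually_gt_atTop 0
  filter_upwards [h1, h6, h7] with x h1 h6 h7
  have h8 : 1 ≤ Real.log (Real.log x) := le_trans (le_max_left _ _) h1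
  refine ⟨h8, ?_, ?_⟩
  · have h9 : 24 * Real.log 6 / δ ≤ Real.log (Real.log x) := le_trans (le_max_right _ _) h1
    rw [div_le_iff₀ hδ] at h9
    rw [div_le_iff₀ (by linarith)]
    linarith
  · simp only [Function.comp] at h6
    rw [div_lt_iff₀ h7] at h6
    exact h6.le

lemma aux4 (δ : ℝ) (hδ : 0 < δ) (hδ1 : δ ≤ 1) : 2 * (1 + 3 * (δ / 12)) / (2 + δ) ≤ 1 - δ / 6 := by
  rw [div_le_iff₀ (by linarith)]
  nlinarith [mul_nonneg hδ.le (sub_nonneg.2 hδ1)]

theorem fewBad (h : BadCount) : FewBad := by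
  classical
  intro δ hδ hδ1
  obtain ⟨y₀, hy3, hy₀⟩ := pi_lower
  refine ⟨δ / 12, by positivity, δ / 12, by positivity, ?_⟩
  have hx : Tendsto (fun x : ℕ => Real.log (x : ℝ)) atTop atTop :=
    Real.tendsto_log_atTop.comp tendsto_natCast_atTop_atTop
  have hev := (params δ hδ).and (hx.eventually_ge_atTop (max 3 (y₀ : ℝ)))
  obtain ⟨x₀, hx₀⟩ := eventually_atTop.1 hev
  refine ⟨x₀, fun x hxx y hy hyx E hE hEc => ?_⟩
  obtain ⟨⟨hLL, hP1, hP2⟩, hL⟩ := hx₀ x hxx
  set c : ℝ := δ / 12 with hc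
  set X : ℝ := Real.log x with hX
  set LL : ℝ := Real.log X with hLLd
  have hX3 : 3 ≤ X := le_trans (le_max_left _ _) hL
  have hXy0 : (y₀ : ℝ) ≤ X := le_trans (le_max_right _ _) hL
  have hX0 : 0 < X := by linarith
  have hx1 : (1 : ℝ) < x := by
    by_contra hcon
    have : X ≤ 0 := by
      rcases Nat.eq_zero_or_pos x with h0 | h0
      · rw [hX, h0]; simp
      · have : (1 : ℝ) ≤ x := by exact_mod_cast h0
        have h1 : (x : ℝ) = 1 := by push Not at hcon; linarith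
        rw [hX, h1]; simp
    linarith
  have hy1 : X ^ (1 : ℝ) ≤ X ^ (2 + δ) :=
    Real.rpow_le_rpow_of_exponent_le (by linarith) (by linarith)
  rw [Real.rpow_one] at hy1
  have hyX : X ≤ (y : ℝ) := le_trans hy1 hy
  have hyy0 : y₀ ≤ y := by exact_mod_cast le_trans hXy0 hyX
  have hy3' : (3 : ℝ) ≤ y := by linarith
  have hy0 : (0 : ℝ) < y := by linarith
  set Y : ℝ := Real.log y with hY
  have hY0 : 0 < Y := Real.log_pos (by linarith)
  have hYX : Y ≤ X := Real.log_le_log hy0 (by exact_mod_cast hyx)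
  have hYL : (2 + δ) * LL ≤ Y := by
    have := Real.log_le_log (Real.rpow_pos_of_pos hX0 _) hy
    rwa [Real.log_rpow hX0] at this
  have hpi := hy₀ y hyy0
  -- size of E
  set e : ℝ := (#E : ℝ) with he
  have hXc : 0 < X ^ c := Real.rpow_pos_of_pos hX0 _
  have he1 : (y : ℝ) / (2 * Y) / X ^ c ≤ e := le_trans (by gcongr) hEc
  have he0 : 0 < e := lt_of_lt_of_le (by positivity) he1
  -- r
  set r : ℕ := ⌈2 * X / Y⌉₊ with hr
  have hr1 : 2 * X / Y ≤ r := Nat.le_ceil _
  have hr2 : (r : ℝ) ≤ 2 * X / Y + 1 := (Nat.ceil_lt_add_one (by positivity)).le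
  have hr3 : (r : ℝ) ≤ 3 * X / Y := by
    have : 1 ≤ X / Y := by rw [le_div_iff₀ hY0]; linarith
    calc (r : ℝ) ≤ 2 * X / Y + 1 := hr2
      _ ≤ 2 * X / Y + X / Y := by linarith
      _ = 3 * X / Y := by ring
  have hpow : x ^ 2 ≤ y ^ r := by
    have h1 : Real.log ((x : ℝ) ^ 2) ≤ Real.log ((y : ℝ) ^ r) := by
      rw [Real.log_pow, Real.log_pow]
      rw [div_le_iff₀ hY0] at hr1
      push_cast
      exact hr1
    have h2 := (Real.log_le_log_iff (by positivity) (by positivity)).1 h1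
    exact_mod_cast h2
  have hM : 0 < e / X ^ c := by positivity
  have hB := h E y x r (e / X ^ c) hE hM hpow
  set B : ℝ := (#{p ∈ PP x | ¬ Good E (e / X ^ c) p} : ℝ) with hBdef
  set M : ℝ := e / X ^ c with hMdef
  set K : ℝ := 6 * X ^ (1 + 3 * c) with hK
  have hK0 : 0 < K := by positivity
  have hc0 : 0 < c := by positivity
  -- y r e ≤ K M²
  have key : (y : ℝ) * r * e ≤ K * M ^ 2 := by
    have h1 : K * M ^ 2 = 6 * X * (e * X ^ c) * e := by
      have e1 : X ^ (1 + 3 * c) = X * (X ^ c) ^ 3 := by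
        rw [Real.rpow_add hX0, Real.rpow_one, mul_comm 3 c, Real.rpow_mul hX0.le]
        norm_cast
      rw [hK, hMdef, e1]
      field_simp
    have h2 : (y : ℝ) / (2 * Y) ≤ e * X ^ c := by
      rwa [div_le_iff₀ hXc] at he1
    rw [h1]
    apply mul_le_mul_of_nonneg_right _ he0.le
    calc (y : ℝ) * r ≤ y * (3 * X / Y) := by gcongr
      _ = 6 * X * (y / (2 * Y)) := by field_simp; ring
      _ ≤ 6 * X * (e * X ^ c) := by gcongr
  have hfac : (r ! : ℝ) ≤ (r : ℝ) ^ r := by exact_mod_cast Nat.factorial_le_pow r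
  have hB2 : B * (M ^ 2) ^ r ≤ 12 * K ^ r * (M ^ 2) ^ r := by
    calc B * (M ^ 2) ^ r = B * M ^ (2 * r) := by rw [← pow_mul]
      _ ≤ 12 * (y : ℝ) ^ r * (r ! : ℝ) * e ^ r := hB
      _ ≤ 12 * (y : ℝ) ^ r * (r : ℝ) ^ r * e ^ r := by gcongr
      _ = 12 * ((y : ℝ) * r * e) ^ r := by rw [mul_pow, mul_pow]; ring
      _ ≤ 12 * (K * M ^ 2) ^ r := by gcongr
      _ = 12 * K ^ r * (M ^ 2) ^ r := by rw [mul_pow]; ring
  have hB3 : B ≤ 12 * K ^ r := le_of_mul_le_mul_right hB2 (by positivity)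
  refine le_trans hB3 ?_
  -- final numeric estimate
  have hlogK : Real.log K = Real.log 6 + (1 + 3 * c) * LL := by
    rw [hK, Real.log_mul (by norm_num) (by positivity), Real.log_rpow hX0]
  have hlogK0 : 0 ≤ Real.log K := by
    rw [hlogK]; have := Real.log_nonneg (show (1:ℝ) ≤ 6 by norm_num); positivity
  have hlog : Real.log (12 * K ^ r) ≤ (1 - δ / 12) * X := by
    rw [Real.log_mul (by norm_num) (by positivity), Real.log_pow]
    have h1 : (r : ℝ) ≤ 2 * X / ((2 + δ) * LL) + 1 := by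
      refine le_trans hr2 ?_
      gcongr
    have h2 : (r : ℝ) * Real.log K ≤ (2 * X / ((2 + δ) * LL) + 1) * (Real.log 6 + (1 + 3 * c) * LL) := by
      rw [← hlogK]; gcongr
    have h3 : (2 * X / ((2 + δ) * LL) + 1) * (Real.log 6 + (1 + 3 * c) * LL) =
        X * (2 / (2 + δ)) * (Real.log 6 / LL) + X * (2 * (1 + 3 * c) / (2 + δ)) +
          (Real.log 6 + (1 + 3 * c) * LL) := by
      have : LL ≠ 0 := by linarith
      have : (2 + δ) ≠ 0 := by linarith
      field_simp
    have h4 : 2 * (1 + 3 * c) / (2 + δ) ≤ 1 - δ / 6 := by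
      exact aux4 δ hδ hδ1
    have h5 : 2 / (2 + δ) ≤ 1 := by rw [div_le_one (by linarith)]; linarith
    have h6 : X * (2 / (2 + δ)) * (Real.log 6 / LL) ≤ X * 1 * (δ / 24) := by
      have : 0 ≤ Real.log 6 / LL := by
        have := Real.log_nonneg (show (1:ℝ) ≤ 6 by norm_num); positivity
      gcongr
    have h7 : (1 + 3 * c) * LL ≤ 2 * LL := by
      have : 3 * c ≤ 1 := by rw [hc]; linarith
      have := mul_le_mul_of_nonneg_right this (show (0:ℝ) ≤ LL by linarith)
      linarith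
    have h8 : Real.log 12 + Real.log 6 = Real.log 72 := by
      rw [← Real.log_mul (by norm_num) (by norm_num)]; norm_num
    have h9 : X * (2 * (1 + 3 * c) / (2 + δ)) ≤ X * (1 - δ / 6) := by gcongr
    have h10 : (r : ℝ) * Real.log K ≤ X * 1 * (δ / 24) + X * (1 - δ / 6) + (Real.log 6 + 2 * LL) := by
      rw [h3] at h2
      linarith
    have h11 : (1 - δ / 12) * X = X * 1 * (δ / 24) + X * (1 - δ / 6) + δ / 24 * X := by ring
    rw [h11]
    linarith
  calc 12 * K ^ r = Real.exp (Real.log (12 * K ^ r)) := (Real.exp_log (by positivity)).symm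
    _ ≤ Real.exp ((1 - δ / 12) * X) := Real.exp_le_exp.2 hlog
    _ = (x : ℝ) ^ (1 - δ / 12) := by
      rw [Real.rpow_def_of_pos (by linarith), mul_comm]

end Pool.Agent.H386R2.Artin
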