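import Mathlib
import Pool.Agent.H386R2.Artin.Stubs
import Pool.Agent.H386R2.Artin.FewBad

/-! The average of the number of primes with a given primitive root over an arbitrary dense set of primes. -/

namespace Pool.Agent.H386R2.Artin

open Finset Filter Topology

lemma card_PP (x : ℕ) : #(PP x) = Nat.primeCounting x := by
  rw [PP, Nat.primeCounting, Nat.primeCounting', Nat.count_eq_card_filter_range]

lemma ev1 (η ε : ℝ) (hη : 0 < η) (hε : 0 < ε) :
    ∀ᶠ x : ℕ in atTop, (x : ℝ) ^ (1 - η) ≤ ε * (x / (2 * Real.log x)) := by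
  have h1 := (isLittleO_log_rpow_atTop hη).def (show (0:ℝ) < ε / 2 by positivity)
  have h2 := (tendsto_natCast_atTop_atTop (R := ℝ)).eventually h1
  filter_upwards [h2, eventually_ge_atTop 3] with x h2 h3
  have hx : (3 : ℝ) ≤ x := by exact_mod_cast h3
  have hx0 : (0 : ℝ) < x := by linarith
  have hl : 0 < Real.log x := Real.log_pos (by linarith)
  rw [Real.norm_eq_abs, abs_of_pos hl, Real.norm_eq_abs, abs_of_pos (Real.rpow_pos_of_pos hx0 _)] at h2
  have e1 : (x : ℝ) = (x : ℝ) ^ (1 - η) * (x : ℝ) ^ η := by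
    rw [← Real.rpow_add hx0]; norm_num
  rw [mul_div_assoc', le_div_iff₀ (by positivity)]
  calc (x : ℝ) ^ (1 - η) * (2 * Real.log x) ≤ (x : ℝ) ^ (1 - η) * (2 * (ε / 2 * (x : ℝ) ^ η)) := by gcongr
    _ = ε * ((x : ℝ) ^ (1 - η) * (x : ℝ) ^ η) := by ring
    _ = ε * x := by rw [← e1]

lemma ev2 (ε : ℝ) (hε : 0 < ε) :
    ∀ᶠ x : ℕ in atTop, 2 * √(x : ℝ) ≤ ε * (x / (2 * Real.log x)) := by
  filter_upwards [ev1 (1/2) (ε/2) (by norm_num) (by positivity)] with x hx
  rw [Real.sqrt_eq_rpow]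
  norm_num at hx ⊢
  linarith

lemma tlog : Tendsto (fun x : ℕ => Real.log (x : ℝ)) atTop atTop :=
  Real.tendsto_log_atTop.comp tendsto_natCast_atTop_atTop

lemma ev3 (ε : ℝ) (hε : 0 < ε) :
    ∀ᶠ x : ℕ in atTop, (x : ℝ) / (Real.log x) ^ 2 ≤ ε * (x / (2 * Real.log x)) := by
  filter_upwards [tlog.eventually_ge_atTop (max 1 (2 / ε))] with x hx
  have h1 : 1 ≤ Real.log x := le_trans (le_max_left _ _) hx
  have h2 : 2 / ε ≤ Real.log x := le_trans (le_max_right _ _) hx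
  rw [div_le_iff₀ hε] at h2
  rw [div_le_iff₀ (by positivity)]
  have : ε * (x / (2 * Real.log x)) * Real.log x ^ 2 = x * (Real.log x * ε / 2) := by
    field_simp
  rw [this]
  have hx0 : (0:ℝ) ≤ x := Nat.cast_nonneg x
  nlinarith

lemma ev4 (ε c : ℝ) (hε : 0 < ε) (hc : 0 < c) :
    ∀ᶠ x : ℕ in atTop, 4 / (Real.log x) ^ c ≤ ε := by
  have h : Tendsto (fun x : ℕ => 4 / (Real.log (x:ℝ)) ^ c) atTop (𝓝 0) :=
    tendsto_const_nhds.div_atTop ((tendsto_rpow_atTop hc).comp tlog)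
  exact (h.eventually (gt_mem_nhds hε)).mono fun x hx => hx.le

lemma ev5 (ε c K : ℝ) (hε : 0 < ε) (hc : 0 < c) :
    ∀ᶠ x : ℕ in atTop, (K + 5 * Real.log (Real.log x)) / (Real.log x) ^ c ≤ ε := by
  have h1 : Tendsto (fun t : ℝ => K / t ^ c) atTop (𝓝 0) :=
    tendsto_const_nhds.div_atTop (tendsto_rpow_atTop hc)
  have h2 : Tendsto (fun t : ℝ => Real.log t / t ^ c) atTop (𝓝 0) :=
    (isLittleO_log_rpow_atTop hc).tendsto_div_nhds_zero
  have h3 := (h1.add (h2.const_mul 5)).comp tlog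
  simp only [mul_zero, add_zero] at h3
  have h4 := h3.eventually (gt_mem_nhds hε)
  filter_upwards [h4] with x hx
  have : (K + 5 * Real.log (Real.log x)) / (Real.log x) ^ c =
      K / (Real.log x) ^ c + 5 * (Real.log (Real.log x) / (Real.log x) ^ c) := by ring
  rw [this]
  exact hx.le

lemma NA_sum (E : Finset ℕ) (m : ℤ) (x : ℕ) :
    ∑ q ∈ E, (NA (m * q) x : ℝ) =
      ∑ p ∈ PP x, (#(E.filter (fun q : ℕ => orderOf ((m * (q : ℤ) : ℤ) : ZMod p) = p - 1)) : ℝ) := by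
  have h1 : ∀ q : ℕ, (NA (m * q) x : ℝ) =
      ∑ p ∈ PP x, if orderOf ((m * (q : ℤ) : ℤ) : ZMod p) = p - 1 then (1 : ℝ) else 0 := by
    intro q
    rw [NA, PP, Finset.sum_boole, Finset.filter_filter]
  simp_rw [h1]
  rw [Finset.sum_comm]
  refine Finset.sum_congr rfl fun p _ => ?_
  rw [Finset.sum_boole]

lemma gL_nonneg (L n : ℕ) : 0 ≤ gL L n := by
  apply Finset.prod_nonneg
  intro l hl
  rw [mem_filter, Nat.mem_primeFactors] at hl
  have : (1 : ℝ) ≤ l := by exact_mod_cast hl.1.1.one_lt.le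
  rw [sub_nonneg, div_le_one (by linarith)]
  exact this

lemma gL_le_one (L n : ℕ) : gL L n ≤ 1 := by
  apply Finset.prod_le_one
  · intro l hl
    rw [mem_filter, Nat.mem_primeFactors] at hl
    have : (1 : ℝ) ≤ l := by exact_mod_cast hl.1.1.one_lt.le
    rw [sub_nonneg, div_le_one (by linarith)]
    exact this
  · intro l hl
    have : (0 : ℝ) ≤ 1 / (l : ℝ) := by positivity
    linarith

lemma card_dvd (m : ℤ) (hm : m ≠ 0) (x : ℕ) :
    (#((PP x).filter (fun p : ℕ => (p : ℤ) ∣ m)) : ℝ) ≤ 2 * Real.log |(m : ℝ)| := by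
  have h0 : m.natAbs ≠ 0 := Int.natAbs_ne_zero.2 hm
  have h1 : (PP x).filter (fun p : ℕ => (p : ℤ) ∣ m) ⊆ m.natAbs.primeFactors := by
    intro p hp
    rw [PP, mem_filter, mem_filter] at hp
    rw [Nat.mem_primeFactors]
    exact ⟨hp.1.2, Int.natCast_dvd.1 hp.2, h0⟩
  have h2 : 2 ^ #(m.natAbs.primeFactors) ≤ m.natAbs := by
    calc 2 ^ #(m.natAbs.primeFactors) = ∏ _p ∈ m.natAbs.primeFactors, 2 := by simp
      _ ≤ ∏ p ∈ m.natAbs.primeFactors, p :=
        Finset.prod_le_prod' fun p hp => (Nat.prime_of_mem_primeFactors hp).two_le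
      _ ≤ m.natAbs := Nat.le_of_dvd (Nat.pos_of_ne_zero h0) (Nat.prod_primeFactors_dvd _)
  have h3 : (2 : ℝ) ^ #(m.natAbs.primeFactors) ≤ |(m : ℝ)| := by
    have : ((m.natAbs : ℕ) : ℝ) = |(m : ℝ)| := by
      rw [← Int.cast_abs, Int.abs_eq_natAbs]; simp
    rw [← this]
    exact_mod_cast h2
  have h4 := Real.log_le_log (by positivity) h3
  rw [Real.log_pow] at h4
  have h5 : (#((PP x).filter (fun p : ℕ => (p : ℤ) ∣ m)) : ℝ) ≤ #(m.natAbs.primeFactors) := by
    exact_mod_cast card_le_card h1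
  have h6 := Real.log_two_gt_d9
  have h7 : (0 : ℝ) ≤ #(m.natAbs.primeFactors) := Nat.cast_nonneg _
  nlinarith

theorem average (h2 : FewBad) (h3 : LocalCount) (h4 : SumG) (h5 : SumH) (h6 : OmegaLarge)
    (h7 : ArtinLim) : Average := by
  classical
  intro δ hδ hδ1
  obtain ⟨c, hc, η, hη, x₁, hx₁⟩ := h2 δ hδ hδ1
  obtain ⟨C, hC, h5⟩ := h5
  obtain ⟨x₆, hx₆⟩ := h6
  obtain ⟨y₀, hy3, hy₀⟩ := pi_lower
  refine ⟨min c (1/2), lt_min hc (by norm_num), fun ε hε => ?_⟩
  -- choice of L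
  set ε' : ℝ := ε / 10 with hε'd
  have hε' : 0 < ε' := by positivity
  have hLlim : ∀ᶠ L : ℕ in atTop, |artinL L - artinC| < ε' := by
    have := (Metric.tendsto_nhds.1 h7) ε' hε'
    simpa [Real.dist_eq] using this
  have hCL : ∀ᶠ L : ℕ in atTop, C / (L : ℝ) < ε' := by
    have : Tendsto (fun L : ℕ => C / (L : ℝ)) atTop (𝓝 0) :=
      tendsto_const_nhds.div_atTop tendsto_natCast_atTop_atTop
    exact this.eventually (gt_mem_nhds hε')
  obtain ⟨L, hL1, hL2, hL3⟩ := ((hLlim.and hCL).and (eventually_ge_atTop 1)).exists.imp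
    (fun L h => (⟨h.1.1, h.1.2, h.2⟩ : _ ∧ _ ∧ _))
  obtain ⟨x₅, hx₅⟩ := h5 L hL3
  have hG : ∀ᶠ x : ℕ in atTop, |(∑ p ∈ PP x, gL L (p - 1)) / (Nat.primeCounting x : ℝ) - artinL L| < ε' := by
    have := (Metric.tendsto_nhds.1 (h4 L)) ε' hε'
    simpa [Real.dist_eq] using this
  have hev := (((((((ev1 η ε' hη hε').and (ev2 ε' hε')).and (ev3 ε' hε')).and
    (ev4 ε' (1/2) hε' (by norm_num))).and (ev5 ε' c (2 ^ L) hε' hc)).and hG).and
    (tlog.eventually_ge_atTop (max 3 (y₀ : ℝ)))).and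
    (((eventually_ge_atTop x₁).and (eventually_ge_atTop x₅)).and
      ((eventually_ge_atTop x₆).and (eventually_ge_atTop y₀)))
  obtain ⟨x₀, hx₀⟩ := eventually_atTop.1 hev
  refine ⟨x₀, fun x hxx y hy hyx E hE hEc m hm hmx => ?_⟩
  obtain ⟨⟨⟨⟨⟨⟨⟨e1, e2⟩, e3⟩, e4⟩, e5⟩, eG⟩, hX⟩, ⟨⟨hxx1, hxx5⟩, ⟨hxx6, hxxy⟩⟩⟩ := hx₀ x hxx
  have hP := hy₀ x hxxy
  set P : ℝ := (Nat.primeCounting x : ℝ) with hPd
  set X : ℝ := Real.log x with hXd
  have hX3 : 3 ≤ X := le_trans (le_max_left _ _) hX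
  have hX0 : 0 < X := by linarith
  have hX1 : 1 ≤ X := by linarith
  have hx0 : (0 : ℝ) < x := by
    have : 3 ≤ x := le_trans hy3 hxxy
    exact_mod_cast (by omega : 0 < x)
  have hP0 : 0 < P := lt_of_lt_of_le (by positivity) hP
  set e : ℝ := (#E : ℝ) with hed
  -- lower bound for e
  have hy2 : X ^ (2 : ℝ) ≤ (y : ℝ) :=
    le_trans (Real.rpow_le_rpow_of_exponent_le hX1 (by linarith)) hy
  have hyX : X ≤ (y : ℝ) := by
    refine le_trans ?_ hy2
    rw [Real.rpow_two]; nlinarith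
  have hyy0 : y₀ ≤ y := by exact_mod_cast le_trans (le_trans (le_max_right _ _) hX) hyX
  have hy3' : (3 : ℝ) ≤ y := by linarith
  have hy0 : (0 : ℝ) < y := by linarith
  have hpiy := hy₀ y hyy0
  have hpiy2 : X / 4 ≤ (Nat.primeCounting y : ℝ) := by
    refine le_trans ?_ hpiy
    have hly : 0 < Real.log y := Real.log_pos (by linarith)
    have h1 : Real.log y ≤ 2 * √(y : ℝ) := by
      have h2 : Real.log √(y : ℝ) ≤ √(y : ℝ) - 1 := Real.log_le_sub_one_of_pos (Real.sqrt_pos.2 hy0)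
      have h3 : Real.log √(y : ℝ) = Real.log y / 2 := by
        rw [Real.log_sqrt hy0.le]
      linarith
    have h2 : X ≤ √(y : ℝ) := by
      rw [Real.rpow_two] at hy2
      exact Real.le_sqrt_of_sq_le hy2
    rw [le_div_iff₀ (by positivity)]
    have h3 : √(y : ℝ) * √(y : ℝ) = y := Real.mul_self_sqrt hy0.le
    have h4 : 0 ≤ √(y : ℝ) := Real.sqrt_nonneg _
    nlinarith
  have hXc : 0 < X ^ c := Real.rpow_pos_of_pos hX0 _
  have hXh : 0 < X ^ (1/2 : ℝ) := Real.rpow_pos_of_pos hX0 _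
  have hXm : 0 < X ^ (min c (1/2)) := Real.rpow_pos_of_pos hX0 _
  have hpiy0 : 0 ≤ (Nat.primeCounting y : ℝ) := Nat.cast_nonneg _
  have hEc' : (Nat.primeCounting y : ℝ) / X ^ c ≤ e := by
    refine le_trans ?_ hEc
    apply div_le_div_of_nonneg_left hpiy0 hXm
    exact Real.rpow_le_rpow_of_exponent_le hX1 (min_le_left _ _)
  have hEh : (Nat.primeCounting y : ℝ) / X ^ (1/2 : ℝ) ≤ e := by
    refine le_trans ?_ hEc
    apply div_le_div_of_nonneg_left hpiy0 hXm
    exact Real.rpow_le_rpow_of_exponent_le hX1 (min_le_right _ _)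
  have he4 : X ^ (1/2 : ℝ) / 4 ≤ e := by
    refine le_trans ?_ hEh
    rw [le_div_iff₀ hXh]
    have : X ^ (1/2 : ℝ) * X ^ (1/2 : ℝ) = X := by
      rw [← Real.rpow_add hX0]; norm_num
    nlinarith
  have he0 : 0 < e := lt_of_lt_of_le (by positivity) he4
  have hone : 1 ≤ ε' * e := by
    rw [div_le_iff₀ hXh] at e4
    nlinarith
  set M : ℝ := e / X ^ c with hMd
  have hM0 : 0 < M := by positivity
  have hbad := hx₁ x hxx1 y hy hyx E hE hEc'
  set W : ℝ := 5 * Real.log X with hWd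
  -- exceptional set of primes
  set F : ℕ → ℝ := fun p => (#(E.filter (fun q : ℕ => orderOf ((m * (q : ℤ) : ℤ) : ZMod p) = p - 1)) : ℝ)
    with hFd
  have hF0 : ∀ p, 0 ≤ F p := fun p => Nat.cast_nonneg _
  have hFe : ∀ p, F p ≤ e := fun p => by
    simp only [hFd, hed]
    exact_mod_cast card_filter_le _ _
  set Z1 : Finset ℕ := (PP x).filter (fun p => ¬ Good E M p) with hZ1
  set Z2 : Finset ℕ := (PP x).filter (fun p : ℕ => (p : ℤ) ∣ m) with hZ2
  set Z3 : Finset ℕ := (PP x).filter (fun p => W < ((p - 1).primeFactors.card : ℝ)) with hZ3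
  have hZ1c : (#Z1 : ℝ) ≤ ε' * P := by
    refine le_trans hbad (le_trans e1 ?_)
    gcongr
  have hZ2c : (#Z2 : ℝ) ≤ ε' * P := by
    refine le_trans (card_dvd m hm x) ?_
    refine le_trans (by linarith : 2 * Real.log |(m : ℝ)| ≤ 2 * √(x : ℝ)) (le_trans e2 ?_)
    gcongr
  have hZ3c : (#Z3 : ℝ) ≤ ε' * P := by
    refine le_trans (hx₆ x hxx6) (le_trans e3 ?_)
    gcongr
  have hpt : ∀ p ∈ PP x, |F p - e * gL L (p - 1)| ≤
      (if p ∈ Z1 then e else 0) + (if p ∈ Z2 then e else 0) + (if p ∈ Z3 then e else 0) +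
        (1 + 2 ^ L * M + W * M + e * hL L (p - 1)) := by
    intro p hp
    have hg0 := gL_nonneg L (p - 1)
    have hg1 := gL_le_one L (p - 1)
    have hh0 : 0 ≤ hL L (p - 1) := Finset.sum_nonneg fun l _ => by positivity
    have hW0 : 0 ≤ W := by
      have := Real.log_nonneg hX1
      positivity
    have hrest : 0 ≤ 1 + 2 ^ L * M + W * M + e * hL L (p - 1) := by positivity
    have htriv : |F p - e * gL L (p - 1)| ≤ e := by
      rw [abs_le]
      constructor
      · have := hF0 p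
        nlinarith
      · have := hFe p
        nlinarith
    have i1 : 0 ≤ (if p ∈ Z1 then e else 0) := by split_ifs <;> linarith
    have i2 : 0 ≤ (if p ∈ Z2 then e else 0) := by split_ifs <;> linarith
    have i3 : 0 ≤ (if p ∈ Z3 then e else 0) := by split_ifs <;> linarith
    by_cases c1 : p ∈ Z1
    · rw [if_pos c1]; linarith
    by_cases c2 : p ∈ Z2
    · rw [if_pos c2]; linarith
    by_cases c3 : p ∈ Z3
    · rw [if_pos c3]; linarith
    have hgood : Good E M p := by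
      by_contra hcon; exact c1 (mem_filter.2 ⟨hp, hcon⟩)
    have hndvd : ¬ (p : ℤ) ∣ m := fun hcon => c2 (mem_filter.2 ⟨hp, hcon⟩)
    have hom : ((p - 1).primeFactors.card : ℝ) ≤ W := by
      by_contra hcon; exact c3 (mem_filter.2 ⟨hp, not_le.1 hcon⟩)
    have hpp : p.Prime := (mem_filter.1 hp).2
    have := h3 p hpp E M m L (fun q hq => (hE q hq).1) hM0.le hgood hndvd
    refine le_trans this ?_
    have h8 : ((p - 1).primeFactors.card : ℝ) * M ≤ W * M := by gcongr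
    linarith
  have hsum : |∑ p ∈ PP x, F p - e * ∑ p ∈ PP x, gL L (p - 1)| ≤
      3 * (ε' * P * e) + P * (1 + 2 ^ L * M + W * M) + e * (C / L * P) := by
    have hs1 : ∑ p ∈ PP x, F p - e * ∑ p ∈ PP x, gL L (p - 1) =
        ∑ p ∈ PP x, (F p - e * gL L (p - 1)) := by
      rw [Finset.sum_sub_distrib, Finset.mul_sum]
    rw [hs1]
    refine le_trans (Finset.abs_sum_le_sum_abs _ _) (le_trans (Finset.sum_le_sum hpt) ?_)
    rw [Finset.sum_add_distrib, Finset.sum_add_distrib, Finset.sum_add_distrib,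
      Finset.sum_add_distrib]
    have hsub : ∀ Z : Finset ℕ, Z ⊆ PP x → ∑ p ∈ PP x, (if p ∈ Z then e else 0) = #Z * e := by
      intro Z hZ
      rw [← Finset.sum_filter, Finset.sum_const, nsmul_eq_mul, Finset.filter_mem_eq_inter,
        Finset.inter_eq_right.2 hZ]
    rw [hsub Z1 (filter_subset _ _), hsub Z2 (filter_subset _ _), hsub Z3 (filter_subset _ _),
      Finset.sum_const, nsmul_eq_mul, card_PP, ← hPd, ← Finset.mul_sum]
    have hh := hx₅ x hxx5
    have g1 : (#Z1 : ℝ) * e ≤ ε' * P * e := by gcongr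
    have g2 : (#Z2 : ℝ) * e ≤ ε' * P * e := by gcongr
    have g3 : (#Z3 : ℝ) * e ≤ ε' * P * e := by gcongr
    have g4 : e * ∑ p ∈ PP x, hL L (p - 1) ≤ e * (C / L * P) := by gcongr
    linarith
  rw [NA_sum E m x]
  change |∑ p ∈ PP x, F p - artinC * P * e| ≤ ε * P * e
  have hMs : P * (1 + 2 ^ L * M + W * M) ≤ 2 * (ε' * P * e) := by
    have k1 : 2 ^ L * M + W * M = e * ((2 ^ L + W) / X ^ c) := by
      rw [hMd]; ring
    have k2 : e * ((2 ^ L + W) / X ^ c) ≤ e * ε' := by gcongr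
    have k3 : 1 + 2 ^ L * M + W * M ≤ 2 * (ε' * e) := by linarith
    calc P * (1 + 2 ^ L * M + W * M) ≤ P * (2 * (ε' * e)) := by gcongr
      _ = 2 * (ε' * P * e) := by ring
  have hCLP : e * (C / L * P) ≤ ε' * P * e := by
    have : C / (L : ℝ) * P ≤ ε' * P := by gcongr
    nlinarith
  have hGP : |e * ∑ p ∈ PP x, gL L (p - 1) - artinL L * P * e| ≤ ε' * P * e := by
    have k1 : e * ∑ p ∈ PP x, gL L (p - 1) - artinL L * P * e =
        ((∑ p ∈ PP x, gL L (p - 1)) / P - artinL L) * (P * e) := by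
      field_simp
    rw [k1, abs_mul, abs_of_pos (by positivity : 0 < P * e)]
    calc |(∑ p ∈ PP x, gL L (p - 1)) / P - artinL L| * (P * e) ≤ ε' * (P * e) := by gcongr
      _ = ε' * P * e := by ring
  have hAP : |artinL L * P * e - artinC * P * e| ≤ ε' * P * e := by
    have k1 : artinL L * P * e - artinC * P * e = (artinL L - artinC) * (P * e) := by ring
    rw [k1, abs_mul, abs_of_pos (by positivity : 0 < P * e)]
    calc |artinL L - artinC| * (P * e) ≤ ε' * (P * e) := by gcongr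
      _ = ε' * P * e := by ring
  have htri : |∑ p ∈ PP x, F p - artinC * P * e| ≤
      |∑ p ∈ PP x, F p - e * ∑ p ∈ PP x, gL L (p - 1)| +
      |e * ∑ p ∈ PP x, gL L (p - 1) - artinL L * P * e| +
      |artinL L * P * e - artinC * P * e| := by
    have := abs_add_three (∑ p ∈ PP x, F p - e * ∑ p ∈ PP x, gL L (p - 1))
      (e * ∑ p ∈ PP x, gL L (p - 1) - artinL L * P * e) (artinL L * P * e - artinC * P * e)
    refine le_trans (le_of_eq ?_) this
    congr 1; ring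
  have hfin : 8 * (ε' * P * e) ≤ ε * P * e := by
    have k1 : ε = 10 * ε' := by linarith [hε'd]
    have k2 : 0 ≤ ε' * P * e := mul_nonneg (mul_nonneg hε'.le hP0.le) he0.le
    have k3 : ε * P * e = 10 * (ε' * P * e) := by
      calc ε * P * e = (10 * ε') * P * e := by rw [← k1]
        _ = 10 * (ε' * P * e) := by ring
    linarith
  linarith

end Pool.Agent.H386R2.Artin
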