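import Mathlib
import Pool.Agent.H386R2.Artin.Stubs

/-! # T3: the local count -/

namespace Pool.Agent.H386R2.Artin

open Finset

section LC

/-- solutions of `a^d = 1` -/
def Hd (p d : ℕ) [NeZero p] : Finset (ZMod p) := univ.filter fun a => a ^ d = 1

theorem mem_Hd {p d : ℕ} [NeZero p] {a : ZMod p} : a ∈ Hd p d ↔ a ^ d = 1 := by
  simp [Hd]

variable {p : ℕ} [hp : Fact p.Prime]

theorem LC_pos : 0 < p - 1 := by
  have := hp.out.two_le
  omega

theorem card_Hd {d : ℕ} (hd : d ∣ p - 1) : (Hd p d).card = d := by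
  have hp1 : 0 < p - 1 := LC_pos
  have hd0 : 0 < d := Nat.pos_of_dvd_of_pos hd hp1
  obtain ⟨ζ, hζ⟩ := HasEnoughRootsOfUnity.exists_primitiveRoot (ZMod p) (p - 1)
  obtain ⟨e, he⟩ := hd
  have h2 : IsPrimitiveRoot (ζ ^ e) d := hζ.pow hp1 (by rw [he, mul_comm])
  have h3 : Hd p d = Polynomial.nthRootsFinset d (1 : ZMod p) := by
    ext a
    rw [mem_Hd, Polynomial.mem_nthRootsFinset hd0]
  rw [h3, h2.card_nthRootsFinset]

theorem Hd_ne_zero {d : ℕ} (hd : 0 < d) {a : ZMod p} (ha : a ∈ Hd p d) : a ≠ 0 := by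
  rintro rfl
  rw [mem_Hd, zero_pow hd.ne'] at ha
  exact zero_ne_one ha

theorem T_nonneg (χ : DirichletCharacter ℂ p) {d : ℕ} (hd : 0 < d) :
    ∃ t : ℝ, 0 ≤ t ∧ ∑ h ∈ Hd p d, χ h⁻¹ = t := by
  by_cases hall : ∀ h ∈ Hd p d, χ h⁻¹ = 1
  · refine ⟨(Hd p d).card, by positivity, ?_⟩
    rw [Finset.sum_congr rfl hall]
    simp
  · push Not at hall
    obtain ⟨h0, hh0, hne⟩ := hall
    refine ⟨0, le_rfl, ?_⟩
    have h00 := Hd_ne_zero hd hh0
    have key : χ h0⁻¹ * ∑ h ∈ Hd p d, χ h⁻¹ = ∑ h ∈ Hd p d, χ h⁻¹ := by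
      rw [Finset.mul_sum]
      refine Finset.sum_bij (fun h _ => h0 * h) ?_ ?_ ?_ ?_
      · intro h hh
        rw [mem_Hd] at *
        rw [mul_pow, hh0, hh, one_mul]
      · intro h _ h' _ he
        exact mul_left_cancel₀ h00 he
      · intro h hh
        refine ⟨h0⁻¹ * h, ?_, ?_⟩
        · rw [mem_Hd] at *
          rw [mul_pow, inv_pow, hh0, hh, inv_one, one_mul]
        · rw [← mul_assoc, mul_inv_cancel₀ h00, one_mul]
      · intro h _
        rw [← map_mul, mul_inv]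
    have h1 : (χ h0⁻¹ - 1) * ∑ h ∈ Hd p d, χ h⁻¹ = 0 := by
      rw [sub_mul, key, one_mul, sub_self]
    rcases mul_eq_zero.mp h1 with h2 | h2
    · exact absurd (sub_eq_zero.mp h2) hne
    · rw [h2]; simp

theorem totient_cast : ((p.totient : ℕ) : ℂ) = ((p - 1 : ℕ) : ℂ) := by
  rw [Nat.totient_prime hp.out]

theorem indicator_Hd {d : ℕ} (hd : 0 < d) (b : ZMod p) :
    ∑ χ : DirichletCharacter ℂ p, (∑ h ∈ Hd p d, χ h⁻¹) * χ b
      = if b ∈ Hd p d then ((p - 1 : ℕ) : ℂ) else 0 := by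
  simp_rw [Finset.sum_mul]
  rw [Finset.sum_comm]
  have h1 : ∀ h ∈ Hd p d, ∑ χ : DirichletCharacter ℂ p, χ h⁻¹ * χ b
      = if h = b then ((p - 1 : ℕ) : ℂ) else 0 := by
    intro h hh
    rw [DirichletCharacter.sum_char_inv_mul_char_eq ℂ (Hd_ne_zero hd hh).isUnit b, totient_cast]
  rw [Finset.sum_congr rfl h1, Finset.sum_ite_eq']

theorem sum_T {d : ℕ} (hd : 0 < d) :
    ∑ χ : DirichletCharacter ℂ p, ∑ h ∈ Hd p d, χ h⁻¹ = ((p - 1 : ℕ) : ℂ) := by
  have h1 := indicator_Hd (p := p) hd 1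
  simp only [map_one, mul_one] at h1
  rw [h1, if_pos]
  rw [mem_Hd, one_pow]

open Classical in
/-- power residues are equidistributed on a good set -/
theorem power_residue (E : Finset ℕ) (M : ℝ) (m : ℤ) (hM : 0 ≤ M) (hG : Good E M p) (hm : ¬ (p : ℤ) ∣ m)
    (k : ℕ) (hk : k ∣ p - 1) :
    |(#(E.filter fun q : ℕ => ((m * (q : ℤ) : ℤ) : ZMod p) ^ ((p - 1) / k) = 1) : ℝ) -
      (#(E.filter fun q : ℕ => (q : ZMod p) ≠ 0) : ℝ) / k| ≤ M := by
  have hp1 : 0 < p - 1 := LC_pos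
  have hk0 : 0 < k := Nat.pos_of_dvd_of_pos hk hp1
  set d := (p - 1) / k with hd
  have hdk : d * k = p - 1 := Nat.div_mul_cancel hk
  have hd0 : 0 < d := by
    rcases Nat.eq_zero_or_pos d with h | h
    · rw [h] at hdk; omega
    · exact h
  have hdd : d ∣ p - 1 := ⟨k, hdk.symm⟩
  choose t ht using fun χ : DirichletCharacter ℂ p => T_nonneg χ hd0
  set S : DirichletCharacter ℂ p → ℂ := fun χ => ∑ q ∈ E, χ (q : ZMod p) with hS
  set e0 : ℕ := #(E.filter fun q : ℕ => (q : ZMod p) ≠ 0) with he0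
  set N : ℕ := #(E.filter fun q : ℕ => ((m * (q : ℤ) : ℤ) : ZMod p) ^ d = 1) with hN
  have h1 : ((p - 1 : ℕ) : ℂ) * N = ∑ χ : DirichletCharacter ℂ p, (t χ : ℂ) * (χ (m : ZMod p) * S χ) := by
    have h2 : ((p - 1 : ℕ) : ℂ) * N
        = ∑ q ∈ E, if ((m * (q : ℤ) : ℤ) : ZMod p) ∈ Hd p d then ((p - 1 : ℕ) : ℂ) else 0 := by
      rw [← Finset.sum_filter, Finset.sum_const, hN]
      simp only [mem_Hd, nsmul_eq_mul]
      ring
    rw [h2]
    have h3 : ∀ q ∈ E, (if ((m * (q : ℤ) : ℤ) : ZMod p) ∈ Hd p d then ((p - 1 : ℕ) : ℂ) else 0)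
        = ∑ χ : DirichletCharacter ℂ p, (t χ : ℂ) * (χ (m : ZMod p) * χ (q : ZMod p)) := by
      intro q _
      rw [← indicator_Hd hd0]
      refine Finset.sum_congr rfl fun χ _ => ?_
      rw [(ht χ).2, ← map_mul]
      push_cast
      rfl
    rw [Finset.sum_congr rfl h3, Finset.sum_comm]
    refine Finset.sum_congr rfl fun χ _ => ?_
    rw [hS]
    simp only [Finset.mul_sum]
  have hmu : (m : ZMod p) ≠ 0 := by
    rwa [Ne, ZMod.intCast_zmod_eq_zero_iff_dvd]
  have h4 : (t 1 : ℂ) = d := by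
    rw [← (ht 1).2]
    have : ∀ h ∈ Hd p d, (1 : DirichletCharacter ℂ p) h⁻¹ = 1 := by
      intro h hh
      exact MulChar.one_apply (inv_ne_zero (Hd_ne_zero hd0 hh)).isUnit
    rw [Finset.sum_congr rfl this]
    simp [card_Hd hdd]
  have h5 : (1 : DirichletCharacter ℂ p) (m : ZMod p) * S 1 = e0 := by
    rw [MulChar.one_apply hmu.isUnit, one_mul, hS, he0]
    simp only
    rw [Finset.card_filter]
    push_cast
    refine Finset.sum_congr rfl fun q _ => ?_
    by_cases hq : (q : ZMod p) = 0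
    · rw [hq, MulChar.map_nonunit _ (by simp), if_neg (by simp)]
    · rw [MulChar.one_apply (Ne.isUnit hq), if_pos hq]
  have h6 : ∑ χ : DirichletCharacter ℂ p, t χ = ((p - 1 : ℕ) : ℝ) := by
    have := sum_T (p := p) hd0
    simp only [(ht _).2] at this
    exact_mod_cast this
  have h7 : ((p - 1 : ℕ) : ℂ) * N - d * e0
      = ∑ χ ∈ (univ : Finset (DirichletCharacter ℂ p)).erase 1, (t χ : ℂ) * (χ (m : ZMod p) * S χ) := by
    rw [h1, ← Finset.add_sum_erase _ _ (Finset.mem_univ (1 : DirichletCharacter ℂ p)), h5, h4]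
    ring
  have h8 : ‖((p - 1 : ℕ) : ℂ) * N - d * e0‖ ≤ ((p - 1 : ℕ) : ℝ) * M := by
    rw [h7]
    calc ‖∑ χ ∈ (univ : Finset (DirichletCharacter ℂ p)).erase 1,
            (t χ : ℂ) * (χ (m : ZMod p) * S χ)‖
          ≤ ∑ χ ∈ (univ : Finset (DirichletCharacter ℂ p)).erase 1,
            ‖(t χ : ℂ) * (χ (m : ZMod p) * S χ)‖ := norm_sum_le _ _
        _ ≤ ∑ χ ∈ (univ : Finset (DirichletCharacter ℂ p)).erase 1, t χ * M := by
            refine Finset.sum_le_sum fun χ hχ => ?_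
            rw [norm_mul, Complex.norm_real, Real.norm_of_nonneg (ht χ).1]
            refine mul_le_mul_of_nonneg_left ?_ (ht χ).1
            rw [norm_mul]
            calc ‖χ (m : ZMod p)‖ * ‖S χ‖ ≤ 1 * ‖S χ‖ :=
                  mul_le_mul_of_nonneg_right (DirichletCharacter.norm_le_one χ _) (norm_nonneg _)
              _ = ‖S χ‖ := one_mul _
              _ ≤ M := hG χ (Finset.ne_of_mem_erase hχ)
        _ = (∑ χ ∈ (univ : Finset (DirichletCharacter ℂ p)).erase 1, t χ) * M := by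
            rw [Finset.sum_mul]
        _ ≤ (∑ χ : DirichletCharacter ℂ p, t χ) * M := by
            refine mul_le_mul_of_nonneg_right ?_ hM
            exact Finset.sum_le_sum_of_subset_of_nonneg (Finset.erase_subset _ _)
              fun χ _ _ => (ht χ).1
        _ = _ := by rw [h6]
  have h9 : ((p - 1 : ℕ) : ℝ) = d * k := by
    rw [← hdk]; push_cast; ring
  have h10 : ((p - 1 : ℕ) : ℂ) * N - d * e0 = ((((p - 1 : ℕ) : ℝ) * (N - e0 / k) : ℝ) : ℂ) := by
    rw [h9]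
    push_cast
    rw [← hdk]
    push_cast
    have hkc : (k : ℂ) ≠ 0 := by exact_mod_cast hk0.ne'
    field_simp
  rw [h10, Complex.norm_real, Real.norm_eq_abs, abs_mul, abs_of_nonneg (by positivity)] at h8
  have hp1' : (0 : ℝ) < ((p - 1 : ℕ) : ℝ) := by exact_mod_cast hp1
  exact le_of_mul_le_mul_left h8 hp1'


theorem pow_prod_iff {a : ZMod p} (ha : a ≠ 0) (K : Finset ℕ) (hK : K ⊆ (p - 1).primeFactors) :
    (∀ l ∈ K, a ^ ((p - 1) / l) = 1) ↔ a ^ ((p - 1) / ∏ l ∈ K, l) = 1 := by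
  have hp1 : 0 < p - 1 := LC_pos
  have hdvd : ∀ K' : Finset ℕ, K' ⊆ (p - 1).primeFactors → ∏ l ∈ K', l ∣ p - 1 := fun K' hK' =>
    (Finset.prod_dvd_prod_of_subset _ _ _ hK').trans (Nat.prod_primeFactors_dvd _)
  constructor
  · intro h
    induction K using Finset.induction_on with
    | empty =>
      rw [Finset.prod_empty, Nat.div_one]
      exact ZMod.pow_card_sub_one_eq_one ha
    | insert l K hl ih =>
      have h1 := ih (fun x hx => hK (Finset.mem_insert_of_mem hx))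
        (fun x hx => h x (Finset.mem_insert_of_mem hx))
      have h2 := h l (Finset.mem_insert_self _ _)
      have hd := hdvd _ hK
      rw [Finset.prod_insert hl] at hd ⊢
      set A := ∏ l ∈ K, l with hA
      obtain ⟨c, hc⟩ := hd
      have hlp : l.Prime := Nat.prime_of_mem_primeFactors (hK (Finset.mem_insert_self _ _))
      have hcop : Nat.Coprime l A := by
        rw [hA]
        apply Nat.Coprime.prod_right
        intro x hx
        refine (Nat.coprime_primes hlp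
          (Nat.prime_of_mem_primeFactors (hK (Finset.mem_insert_of_mem hx)))).mpr ?_
        rintro rfl
        exact hl hx
      have hlA : 0 < l * A := by
        rcases Nat.eq_zero_or_pos (l * A) with h0 | h0
        · rw [h0, zero_mul] at hc; omega
        · exact h0
      have hl0 : 0 < l := Nat.pos_of_mul_pos_right hlA
      have hA0 : 0 < A := Nat.pos_of_mul_pos_left hlA
      have e1 : (p - 1) / A = l * c := by
        rw [hc, mul_comm l A, mul_assoc]
        exact Nat.mul_div_cancel_left _ hA0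
      have e2 : (p - 1) / l = A * c := by
        rw [hc, mul_assoc]
        exact Nat.mul_div_cancel_left _ hl0
      have e3 : (p - 1) / (l * A) = c := by
        rw [hc]
        exact Nat.mul_div_cancel_left _ hlA
      rw [e1] at h1
      rw [e2] at h2
      rw [e3]
      have h3 := orderOf_dvd_of_pow_eq_one h1
      have h4 := orderOf_dvd_of_pow_eq_one h2
      have h5 := Nat.dvd_gcd h3 h4
      rw [Nat.gcd_mul_right, hcop.gcd_eq_one, one_mul] at h5
      exact orderOf_dvd_iff_pow_eq_one.mp h5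
  · intro h l hl
    have h1 : l ∣ ∏ l ∈ K, l := Finset.dvd_prod_of_mem _ hl
    obtain ⟨c, hc⟩ := h1
    obtain ⟨e, he⟩ := hdvd K hK
    have hpos : 0 < ∏ l ∈ K, l := by
      rcases Nat.eq_zero_or_pos (∏ l ∈ K, l) with h0 | h0
      · rw [h0, zero_mul] at he; omega
      · exact h0
    have hl0 : 0 < l := by
      rw [hc] at hpos
      exact Nat.pos_of_mul_pos_right hpos
    rw [he, Nat.mul_div_cancel_left _ hpos] at h
    rw [he, hc, mul_assoc, Nat.mul_div_cancel_left _ hl0, mul_comm c e, pow_mul, h, one_pow]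

theorem incl_excl (a : ZMod p) (P : Finset ℕ) (hP : P ⊆ (p - 1).primeFactors) :
    (if a ≠ 0 ∧ ∀ l ∈ P, a ^ ((p - 1) / l) ≠ 1 then (1 : ℝ) else 0)
      = ∑ K ∈ P.powerset, (-1 : ℝ) ^ #K * (if a ^ ((p - 1) / ∏ l ∈ K, l) = 1 then 1 else 0) := by
  have hp1 : 0 < p - 1 := LC_pos
  by_cases ha : a = 0
  · rw [if_neg (by simp [ha])]
    symm
    refine Finset.sum_eq_zero fun K hK => ?_
    rw [if_neg, mul_zero]
    have hd : ∏ l ∈ K, l ∣ p - 1 :=
      (Finset.prod_dvd_prod_of_subset _ _ _ ((Finset.mem_powerset.mp hK).trans hP)).trans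
        (Nat.prod_primeFactors_dvd _)
    have : 0 < (p - 1) / ∏ l ∈ K, l := Nat.div_pos (Nat.le_of_dvd hp1 hd)
      (Nat.pos_of_dvd_of_pos hd hp1)
    rw [ha, zero_pow this.ne']
    exact zero_ne_one
  · have h1 : (if a ≠ 0 ∧ ∀ l ∈ P, a ^ ((p - 1) / l) ≠ 1 then (1 : ℝ) else 0)
        = ∏ l ∈ P, (-(if a ^ ((p - 1) / l) = 1 then (1 : ℝ) else 0) + 1) := by
      by_cases h : ∀ l ∈ P, a ^ ((p - 1) / l) ≠ 1
      · rw [if_pos ⟨ha, h⟩]
        symm
        refine Finset.prod_eq_one fun l hl => ?_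
        rw [if_neg (h l hl)]
        norm_num
      · rw [if_neg (fun h' => h h'.2)]
        push Not at h
        obtain ⟨l, hl, hl1⟩ := h
        symm
        refine Finset.prod_eq_zero hl ?_
        rw [if_pos hl1]
        norm_num
    rw [h1, Finset.prod_add]
    refine Finset.sum_congr rfl fun K hK => ?_
    rw [Finset.prod_const_one, mul_one, Finset.prod_neg]
    congr 1
    have h2 := pow_prod_iff ha K ((Finset.mem_powerset.mp hK).trans hP)
    by_cases h : ∀ l ∈ K, a ^ ((p - 1) / l) = 1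
    · rw [if_pos (h2.mp h)]
      refine Finset.prod_eq_one fun l hl => ?_
      rw [if_pos (h l hl)]
    · rw [if_neg (fun h' => h (h2.mpr h'))]
      push Not at h
      obtain ⟨l, hl, hl1⟩ := h
      exact Finset.prod_eq_zero hl (if_neg hl1)

theorem gL_expand (L n : ℕ) : gL L n = ∑ K ∈ (n.primeFactors.filter fun l => l ≤ L).powerset,
    (-1 : ℝ) ^ #K * (1 / ((∏ l ∈ K, l : ℕ) : ℝ)) := by
  unfold gL
  have : ∀ l ∈ n.primeFactors.filter (fun l => l ≤ L), (1 - 1 / (l : ℝ)) = -(1 / (l : ℝ)) + 1 := by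
    intro l _; ring
  rw [Finset.prod_congr rfl this, Finset.prod_add]
  refine Finset.sum_congr rfl fun K _ => ?_
  rw [Finset.prod_const_one, mul_one, Finset.prod_neg]
  congr 1
  push_cast
  rw [Finset.prod_div_distrib, Finset.prod_const_one]

theorem gL_nonneg (L n : ℕ) : 0 ≤ gL L n := by
  unfold gL
  refine Finset.prod_nonneg fun l hl => ?_
  have hl1 : 1 ≤ l := (Nat.prime_of_mem_primeFactors (Finset.mem_filter.mp hl).1).one_le
  have : (1 : ℝ) ≤ l := by exact_mod_cast hl1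
  rw [sub_nonneg, div_le_one (by linarith)]
  exact this

theorem gL_le_one (L n : ℕ) : gL L n ≤ 1 := by
  unfold gL
  refine Finset.prod_le_one (fun l hl => ?_) (fun l hl => ?_)
  · have hl1 : 1 ≤ l := (Nat.prime_of_mem_primeFactors (Finset.mem_filter.mp hl).1).one_le
    have : (1 : ℝ) ≤ l := by exact_mod_cast hl1
    rw [sub_nonneg, div_le_one (by linarith)]
    exact this
  · rw [sub_le_self_iff]
    positivity

open Classical in
theorem count_L (E : Finset ℕ) (M : ℝ) (m : ℤ) (hM : 0 ≤ M) (hG : Good E M p)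
    (hm : ¬ (p : ℤ) ∣ m) (L : ℕ) (P : Finset ℕ)
    (hP : P = (p - 1).primeFactors.filter (fun l => l ≤ L)) :
    |(#(E.filter fun q : ℕ => ((m * (q : ℤ) : ℤ) : ZMod p) ≠ 0 ∧
        ∀ l ∈ P, ((m * (q : ℤ) : ℤ) : ZMod p) ^ ((p - 1) / l) ≠ 1) : ℝ)
      - (#(E.filter fun q : ℕ => (q : ZMod p) ≠ 0) : ℝ) * gL L (p - 1)| ≤ 2 ^ L * M := by
  set e0 : ℕ := #(E.filter fun q : ℕ => (q : ZMod p) ≠ 0) with he0
  have hPs : P ⊆ (p - 1).primeFactors := by
    rw [hP]
    exact Finset.filter_subset _ _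
  have h1 : (#(E.filter fun q : ℕ => ((m * (q : ℤ) : ℤ) : ZMod p) ≠ 0 ∧
        ∀ l ∈ P, ((m * (q : ℤ) : ℤ) : ZMod p) ^ ((p - 1) / l) ≠ 1) : ℝ)
      = ∑ K ∈ P.powerset, (-1 : ℝ) ^ #K *
        (#(E.filter fun q : ℕ => ((m * (q : ℤ) : ℤ) : ZMod p) ^ ((p - 1) / ∏ l ∈ K, l) = 1) : ℝ) := by
    rw [Finset.card_filter]
    push_cast
    have : ∀ q ∈ E, (if ((m : ZMod p) * ((q : ℕ) : ZMod p)) ≠ 0 ∧
        ∀ l ∈ P, ((m : ZMod p) * (q : ZMod p)) ^ ((p - 1) / l) ≠ 1 then (1 : ℝ) else 0)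
        = ∑ K ∈ P.powerset, (-1 : ℝ) ^ #K *
          (if ((m : ZMod p) * (q : ZMod p)) ^ ((p - 1) / ∏ l ∈ K, l) = 1 then 1 else 0) := by
      intro q _
      exact incl_excl _ P hPs
    rw [Finset.sum_congr rfl this, Finset.sum_comm]
    refine Finset.sum_congr rfl fun K _ => ?_
    rw [← Finset.mul_sum]
    congr 1
    rw [Finset.card_filter]
    push_cast
    rfl
  rw [h1, gL_expand, ← hP, Finset.mul_sum, ← Finset.sum_sub_distrib]
  calc |∑ K ∈ P.powerset, ((-1 : ℝ) ^ #K *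
        (#(E.filter fun q : ℕ => ((m * (q : ℤ) : ℤ) : ZMod p) ^ ((p - 1) / ∏ l ∈ K, l) = 1) : ℝ)
        - (e0 : ℝ) * ((-1 : ℝ) ^ #K * (1 / ((∏ l ∈ K, l : ℕ) : ℝ))))|
      ≤ ∑ K ∈ P.powerset, |(-1 : ℝ) ^ #K *
        (#(E.filter fun q : ℕ => ((m * (q : ℤ) : ℤ) : ZMod p) ^ ((p - 1) / ∏ l ∈ K, l) = 1) : ℝ)
        - (e0 : ℝ) * ((-1 : ℝ) ^ #K * (1 / ((∏ l ∈ K, l : ℕ) : ℝ)))| :=
        Finset.abs_sum_le_sum_abs _ _
    _ ≤ ∑ K ∈ P.powerset, M := by
        refine Finset.sum_le_sum fun K hK => ?_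
        have hd : ∏ l ∈ K, l ∣ p - 1 :=
          (Finset.prod_dvd_prod_of_subset _ _ _ ((Finset.mem_powerset.mp hK).trans hPs)).trans
            (Nat.prod_primeFactors_dvd _)
        have h2 := power_residue E M m hM hG hm _ hd
        have h3 : (-1 : ℝ) ^ #K *
          (#(E.filter fun q : ℕ => ((m * (q : ℤ) : ℤ) : ZMod p) ^ ((p - 1) / ∏ l ∈ K, l) = 1) : ℝ)
          - (e0 : ℝ) * ((-1 : ℝ) ^ #K * (1 / ((∏ l ∈ K, l : ℕ) : ℝ)))
          = (-1 : ℝ) ^ #K * ((#(E.filter fun q : ℕ =>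
            ((m * (q : ℤ) : ℤ) : ZMod p) ^ ((p - 1) / ∏ l ∈ K, l) = 1) : ℝ)
            - (e0 : ℝ) / ((∏ l ∈ K, l : ℕ) : ℝ)) := by ring
        rw [h3, abs_mul, abs_pow, abs_neg, abs_one, one_pow, one_mul]
        exact h2
    _ = 2 ^ #P * M := by
        rw [Finset.sum_const, Finset.card_powerset, nsmul_eq_mul]
        push_cast
        ring
    _ ≤ 2 ^ L * M := by
        refine mul_le_mul_of_nonneg_right ?_ hM
        refine pow_le_pow_right₀ (by norm_num) ?_
        have : P ⊆ Finset.Icc 1 L := by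
          intro l hl
          rw [hP, Finset.mem_filter] at hl
          exact Finset.mem_Icc.mpr ⟨(Nat.prime_of_mem_primeFactors hl.1).one_le, hl.2⟩
        simpa using Finset.card_le_card this


open Classical in
theorem LC_main (E : Finset ℕ) (M : ℝ) (m : ℤ) (hE : ∀ q ∈ E, q.Prime) (hM : 0 ≤ M)
    (hG : Good E M p) (hm : ¬ (p : ℤ) ∣ m) (L : ℕ) :
    |(#(E.filter (fun q : ℕ => orderOf ((m * (q : ℤ) : ℤ) : ZMod p) = p - 1)) : ℝ)
      - #E * gL L (p - 1)| ≤
      1 + 2 ^ L * M + #E * hL L (p - 1) + (p - 1).primeFactors.card * M := by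
  have hp1 : 0 < p - 1 := LC_pos
  have hmu : (m : ZMod p) ≠ 0 := by
    rwa [Ne, ZMod.intCast_zmod_eq_zero_iff_dvd]
  obtain ⟨P, hP⟩ : ∃ P, P = (p - 1).primeFactors.filter (fun l => l ≤ L) := ⟨_, rfl⟩
  obtain ⟨R, hR⟩ : ∃ R, R = (p - 1).primeFactors.filter (fun l => L < l) := ⟨_, rfl⟩
  have hA := count_L E M m hM hG hm L P hP
  set a : ℕ → ZMod p := fun q => ((m * (q : ℤ) : ℤ) : ZMod p) with ha
  set B := E.filter (fun q : ℕ => orderOf (a q) = p - 1) with hB
  set A := E.filter (fun q : ℕ => a q ≠ 0 ∧ ∀ l ∈ P, (a q) ^ ((p - 1) / l) ≠ 1) with hAdef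
  set E0 := E.filter (fun q : ℕ => (q : ZMod p) ≠ 0) with hE0
  have hnorm : ∀ q : ℕ, a q = (m : ZMod p) * (q : ZMod p) := by
    intro q; simp [ha]
  -- B ⊆ A
  have hBA : B ⊆ A := by
    intro q hq
    rw [hB, Finset.mem_filter] at hq
    rw [hAdef, Finset.mem_filter]
    have h0 : a q ≠ 0 := by
      intro h0
      have h1 := hq.2
      have h2 : (a q) ^ (p - 1) = 1 := by rw [← h1]; exact pow_orderOf_eq_one _
      rw [h0, zero_pow hp1.ne'] at h2
      exact zero_ne_one h2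
    refine ⟨hq.1, h0, fun l hl h1 => ?_⟩
    rw [hP, Finset.mem_filter] at hl
    have hlp := Nat.prime_of_mem_primeFactors hl.1
    have hld := Nat.dvd_of_mem_primeFactors hl.1
    have h3 := orderOf_dvd_of_pow_eq_one h1
    rw [hq.2] at h3
    have h4 := Nat.le_of_dvd (Nat.div_pos (Nat.le_of_dvd hp1 hld) hlp.pos) h3
    have h5 : (p - 1) / l < p - 1 := Nat.div_lt_self hp1 hlp.one_lt
    omega
  -- A ⊆ B ∪ ...
  have hAB : A ⊆ B ∪ R.biUnion fun l => E.filter fun q : ℕ => (a q) ^ ((p - 1) / l) = 1 := by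
    intro q hq
    rw [hAdef, Finset.mem_filter] at hq
    rw [Finset.mem_union, Finset.mem_biUnion]
    by_cases h : ∀ l ∈ R, (a q) ^ ((p - 1) / l) ≠ 1
    · left
      rw [hB, Finset.mem_filter]
      refine ⟨hq.1, ?_⟩
      apply orderOf_eq_of_pow_and_pow_div_prime hp1 (ZMod.pow_card_sub_one_eq_one hq.2.1)
      intro l hlp hld
      have hmem : l ∈ (p - 1).primeFactors := Nat.mem_primeFactors.mpr ⟨hlp, hld, hp1.ne'⟩
      rcases le_or_gt l L with hl | hl
      · exact hq.2.2 l (by rw [hP, Finset.mem_filter]; exact ⟨hmem, hl⟩)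
      · exact h l (by rw [hR, Finset.mem_filter]; exact ⟨hmem, hl⟩)
    · right
      push Not at h
      obtain ⟨l, hl, hl1⟩ := h
      exact ⟨l, hl, Finset.mem_filter.mpr ⟨hq.1, hl1⟩⟩
  have h1 : (#B : ℝ) ≤ #A := by exact_mod_cast Finset.card_le_card hBA
  have h2 : (#A : ℝ) ≤ #B + ∑ l ∈ R, ((#E0 : ℝ) / l + M) := by
    have h3 : #A ≤ #B + ∑ l ∈ R, #(E.filter fun q : ℕ => (a q) ^ ((p - 1) / l) = 1) :=
      (Finset.card_le_card hAB).trans ((Finset.card_union_le _ _).trans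
        (Nat.add_le_add_left Finset.card_biUnion_le _))
    calc (#A : ℝ) ≤ #B + ∑ l ∈ R, (#(E.filter fun q : ℕ => (a q) ^ ((p - 1) / l) = 1) : ℝ) := by
          exact_mod_cast h3
      _ ≤ _ := by
          refine add_le_add_right (Finset.sum_le_sum fun l hl => ?_) _
          rw [hR, Finset.mem_filter] at hl
          have h4 := power_residue E M m hM hG hm l (Nat.dvd_of_mem_primeFactors hl.1)
          rw [abs_le] at h4
          have h5 := h4.2
          rw [sub_le_iff_le_add] at h5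
          rw [add_comm]
          exact h5
  have hE0le : (#E0 : ℝ) ≤ #E := by exact_mod_cast Finset.card_le_card (Finset.filter_subset _ _)
  have hE0ge : (#E : ℝ) ≤ #E0 + 1 := by
    have h3 : E ⊆ insert p E0 := by
      intro q hq
      rw [Finset.mem_insert, hE0, Finset.mem_filter]
      by_cases h0 : (q : ZMod p) = 0
      · left
        rw [ZMod.natCast_eq_zero_iff] at h0
        exact ((Nat.prime_dvd_prime_iff_eq hp.out (hE q hq)).mp h0).symm
      · right
        exact ⟨hq, h0⟩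
    have h4 := (Finset.card_le_card h3).trans (Finset.card_insert_le _ _)
    exact_mod_cast h4
  have hsum : ∑ l ∈ R, ((#E0 : ℝ) / l + M) ≤ #E * hL L (p - 1) + (p - 1).primeFactors.card * M := by
    rw [Finset.sum_add_distrib, Finset.sum_const, nsmul_eq_mul]
    refine add_le_add ?_ ?_
    · unfold hL
      rw [← hR, Finset.mul_sum]
      refine Finset.sum_le_sum fun l _ => ?_
      rw [mul_one_div]
      exact div_le_div_of_nonneg_right hE0le (by positivity)
    · refine mul_le_mul_of_nonneg_right ?_ hM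
      have : R ⊆ (p - 1).primeFactors := by rw [hR]; exact Finset.filter_subset _ _
      exact_mod_cast Finset.card_le_card this
  have hg0 := gL_nonneg L (p - 1)
  have hg1 := gL_le_one L (p - 1)
  rw [abs_le] at hA ⊢
  have h2L : (0 : ℝ) ≤ 2 ^ L * M := by positivity
  have hh : 0 ≤ (#E : ℝ) * hL L (p - 1) := by
    refine mul_nonneg (by positivity) ?_
    unfold hL
    exact Finset.sum_nonneg fun l _ => by positivity
  have hw : 0 ≤ ((p - 1).primeFactors.card : ℝ) * M := by positivity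
  have e1 : (#E0 : ℝ) * gL L (p - 1) ≤ #E * gL L (p - 1) := mul_le_mul_of_nonneg_right hE0le hg0
  have e2 : (#E : ℝ) * gL L (p - 1) ≤ #E0 * gL L (p - 1) + 1 := by
    calc (#E : ℝ) * gL L (p - 1) ≤ (#E0 + 1) * gL L (p - 1) := mul_le_mul_of_nonneg_right hE0ge hg0
      _ ≤ _ := by linarith
  constructor
  · linarith [hA.1]
  · linarith [hA.2]

end LC

theorem localCount : LocalCount := by
  intro p hp E M m L hE hM hG hm
  have : Fact p.Prime := ⟨hp⟩
  have h := LC_main E M m hE hM hG hm L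
  convert h using 6

end Pool.Agent.H386R2.Artin
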