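import Mathlib
import Pool.Agent.H386R2.Artin.Stubs
import Pool.Agent.H730R2.AA.Tau

/-! T6: few primes `p` with `ω(p-1)` large. -/

namespace Pool.Agent.H386R2.Artin

open Finset Filter Topology

theorem two_pow_omega_le {n : ℕ} (hn : n ≠ 0) : 2 ^ n.primeFactors.card ≤ n.divisors.card := by
  rw [Nat.card_divisors hn]
  apply Finset.pow_card_le_prod
  intro q hq
  have h1 : q.Prime := Nat.prime_of_mem_primeFactors hq
  have h2 := (h1.dvd_iff_one_le_factorization hn).mp (Nat.dvd_of_mem_primeFactors hq)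
  omega

theorem omegaLarge : OmegaLarge := by
  classical
  unfold OmegaLarge
  -- `t ↦ t` beats the constant
  obtain ⟨x₀, hx₀⟩ : ∃ x₀ : ℕ, ∀ x : ℕ, x₀ ≤ x → 6 ≤ Real.log x := by
    have : Tendsto (fun x : ℕ => Real.log x) atTop atTop :=
      Real.tendsto_log_atTop.comp tendsto_natCast_atTop_atTop
    exact Filter.eventually_atTop.mp (this.eventually_ge_atTop 6)
  refine ⟨max x₀ 1, fun x hx => ?_⟩
  have hlog := hx₀ x (le_trans (le_max_left _ _) hx)
  have hx1 : 1 ≤ x := le_trans (le_max_right _ _) hx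
  set t := Real.log x with ht
  have ht0 : 0 < t := by linarith
  set B := PP x |>.filter (fun p => 5 * Real.log t < ((p - 1).primeFactors.card : ℝ)) with hB
  -- lower bound for `2^ω` on the bad set
  have h1 : ∀ p ∈ B, t ^ (17 / 5 : ℝ) ≤ ((p - 1).divisors.card : ℝ) := by
    intro p hp
    rw [hB, Finset.mem_filter] at hp
    obtain ⟨hp1, hp2⟩ := hp
    unfold PP at hp1
    rw [Finset.mem_filter] at hp1
    have hp3 : p - 1 ≠ 0 := by have := hp1.2.two_le; omega
    have h2 : (2 : ℝ) ^ (p - 1).primeFactors.card ≤ ((p - 1).divisors.card : ℝ) := by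
      exact_mod_cast two_pow_omega_le hp3
    refine le_trans ?_ h2
    rw [← Real.rpow_natCast, Real.rpow_def_of_pos ht0, Real.rpow_def_of_pos (by norm_num : (0 : ℝ) < 2)]
    apply Real.exp_le_exp.mpr
    have hl2 : (0.6931471803 : ℝ) < Real.log 2 := Real.log_two_gt_d9
    have hlt : 0 ≤ Real.log t := Real.log_nonneg (by linarith)
    have h3 : Real.log 2 * (5 * Real.log t) ≤ Real.log 2 * ((p - 1).primeFactors.card : ℝ) :=
      mul_le_mul_of_nonneg_left hp2.le (by linarith)
    refine le_trans ?_ h3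
    nlinarith
  -- sum over the bad set
  have h2 : (B.card : ℝ) * t ^ (17 / 5 : ℝ) ≤ x * (1 + t) := by
    have h3 : ∑ p ∈ B, ((p - 1).divisors.card : ℝ) ≤ ∑ n ∈ Icc 1 x, (n.divisors.card : ℝ) := by
      have hinj : Set.InjOn (fun p : ℕ => p - 1) (B : Set ℕ) := by
        intro a ha b hb hab
        have ha1 : 2 ≤ a := by
          have := Finset.mem_coe.mp ha
          rw [hB, Finset.mem_filter] at this
          unfold PP at this
          rw [Finset.mem_filter] at this
          exact this.1.2.two_le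
        have hb1 : 2 ≤ b := by
          have := Finset.mem_coe.mp hb
          rw [hB, Finset.mem_filter] at this
          unfold PP at this
          rw [Finset.mem_filter] at this
          exact this.1.2.two_le
        simp only at hab
        omega
      rw [← Finset.sum_image (f := fun n : ℕ => (n.divisors.card : ℝ)) hinj]
      apply Finset.sum_le_sum_of_subset_of_nonneg
      · intro n hn
        rw [Finset.mem_image] at hn
        obtain ⟨p, hp, rfl⟩ := hn
        rw [hB, Finset.mem_filter] at hp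
        unfold PP at hp
        rw [Finset.mem_filter, Finset.mem_range] at hp
        have := hp.1.2.two_le
        rw [Finset.mem_Icc]
        omega
      · intro n _ _
        positivity
    calc (B.card : ℝ) * t ^ (17 / 5 : ℝ) = ∑ _p ∈ B, t ^ (17 / 5 : ℝ) := by
          rw [Finset.sum_const, nsmul_eq_mul]
      _ ≤ ∑ p ∈ B, ((p - 1).divisors.card : ℝ) := Finset.sum_le_sum h1
      _ ≤ _ := h3
      _ ≤ x * (1 + t) := Pool.Agent.H730R2.AA.sum_divisors_card x hx1
  -- compare
  have h4 : (1 + t) * t ^ 2 ≤ t ^ (17 / 5 : ℝ) := by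
    have h5 : t ^ (17 / 5 : ℝ) = t ^ (2 / 5 : ℝ) * t ^ 3 := by
      rw [show (17 / 5 : ℝ) = 2 / 5 + 3 by norm_num, Real.rpow_add ht0]
      norm_num
    have h6 : (2 : ℝ) ≤ t ^ (2 / 5 : ℝ) := by
      have : ((2 : ℝ) ^ (5 / 2 : ℝ)) ^ (2 / 5 : ℝ) = (2 : ℝ) := by
        rw [← Real.rpow_mul (by norm_num)]; norm_num
      refine this.symm.le.trans ?_
      apply Real.rpow_le_rpow (by positivity) _ (by norm_num)
      have h7 : (2 : ℝ) ^ (5 / 2 : ℝ) = 4 * Real.sqrt 2 := by
        rw [show (5 / 2 : ℝ) = 2 + 1 / 2 by norm_num, Real.rpow_add (by norm_num),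
          ← Real.sqrt_eq_rpow]
        norm_num
      rw [h7]
      have h8 : Real.sqrt 2 ≤ 3 / 2 := by
        rw [Real.sqrt_le_left (by norm_num)]
        norm_num
      linarith
    rw [h5]
    have h9 : 0 < t ^ 3 := by positivity
    have h10 : 2 * t ^ 3 ≤ t ^ (2 / 5 : ℝ) * t ^ 3 := mul_le_mul_of_nonneg_right h6 h9.le
    refine le_trans ?_ h10
    nlinarith [sq_nonneg t]
  have ht2 : 0 < t ^ 2 := by positivity
  rw [le_div_iff₀ ht2]
  have h11 : 0 < 1 + t := by linarith
  have h12 : (B.card : ℝ) * ((1 + t) * t ^ 2) ≤ x * (1 + t) :=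
    le_trans (mul_le_mul_of_nonneg_left h4 (by positivity)) h2
  have h13 : (1 + t) * ((B.card : ℝ) * t ^ 2) ≤ (1 + t) * x := by
    refine le_trans (le_of_eq ?_) (h12.trans (le_of_eq ?_)) <;> ring
  exact le_of_mul_le_mul_left h13 h11

end Pool.Agent.H386R2.Artin
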