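import Mathlib
import Pool.Agent.H386R2.Artin.Stubs

/-! T9: almost all integers, from almost all primes and the scarcity of smooth numbers. -/

namespace Pool.Agent.H386R2.Artin

open Finset Filter Topology

theorem int_cheb : ∃ Y₀ : ℕ, ∀ y : ℕ, Y₀ ≤ y →
    (Nat.primeCounting y : ℝ) ≤ 3 * y / Real.log y := by
  have h := Chebyshev.eventually_primeCounting_le (ε := 1) one_pos
  have h2 := tendsto_natCast_atTop_atTop (R := ℝ) |>.eventually h
  obtain ⟨Y, hY⟩ := eventually_atTop.1 h2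
  refine ⟨max Y 1, fun y hy => ?_⟩
  have h3 := hY y (le_of_max_le_left hy)
  rw [Nat.floor_natCast] at h3
  refine h3.trans ?_
  have h4 : Real.log 4 ≤ 2 := by
    have : (4 : ℝ) = 2 ^ 2 := by norm_num
    rw [this, Real.log_pow]
    have := Real.log_two_lt_d9
    push_cast
    linarith
  have h5 : 0 ≤ Real.log (y : ℝ) := Real.log_natCast_nonneg y
  gcongr
  linarith

theorem int_harm (N : ℕ) : ∑ m ∈ Icc 1 N, (1 : ℝ) / m ≤ 1 + Real.log N := by
  have h := harmonic_le_one_add_log N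
  have h2 : ((harmonic N : ℚ) : ℝ) = ∑ m ∈ Icc 1 N, (1 : ℝ) / m := by
    rw [harmonic_eq_sum_Icc]
    push_cast
    simp
  linarith

open Classical in
/-- the exceptional natural numbers `a ≤ N` -/
noncomputable def ExN (ε : ℝ) (x N : ℕ) : Finset ℕ :=
  (Icc 1 N).filter fun a : ℕ => ε < |(NA (a : ℤ) x : ℝ) / Nat.primeCounting x - artinC|

open Classical in
/-- the exceptional primes `q ≤ y` for the multiplier `m` -/
noncomputable def ExP (ε : ℝ) (x y : ℕ) (m : ℤ) : Finset ℕ :=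
  (PP y).filter fun q : ℕ => ε < |(NA (m * (q : ℤ)) x : ℝ) / Nat.primeCounting x - artinC|

/-- the clean form of `PrimesResult` -/
def PrimesResult' : Prop := ∀ δ : ℝ, 0 < δ → ∃ c : ℝ, 0 < c ∧ ∀ ε : ℝ, 0 < ε → ∃ x₀ : ℕ,
  ∀ x : ℕ, x₀ ≤ x → ∀ y : ℕ, (Real.log x) ^ (2 + δ) ≤ (y : ℝ) → y ≤ x →
    ∀ m : ℤ, m ≠ 0 → Real.log |(m : ℝ)| ≤ √x →
      (#(ExP ε x y m) : ℝ) ≤ (Nat.primeCounting y : ℝ) / (Real.log x) ^ c

/-- the clean form of `IntegersResult` -/
def IntegersResult' : Prop := ∀ ε : ℝ, 0 < ε → ∃ C : ℝ, 0 < C ∧ ∃ x₀ : ℕ,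
  ∀ x : ℕ, x₀ ≤ x → ∀ N : ℕ, (Real.log x) ^ C ≤ (N : ℝ) → N ≤ x →
      (#(ExN ε x N) : ℝ) ≤ ε * N

open Classical in
theorem int_cover (ε : ℝ) (x N : ℕ) (S : Finset ℕ) (z : ℝ)
    (hS : ∀ a ∈ Icc 1 N, (∀ p : ℕ, p.Prime → p ∣ a → (p : ℝ) ≤ z) → a ∈ S) :
    #(ExN ε x N) ≤ #S +
      ∑ m ∈ (Icc 1 N).filter (fun m : ℕ => z < ((N / m : ℕ) : ℝ)), #(ExP ε x (N / m) m) := by
  set M := (Icc 1 N).filter (fun m : ℕ => z < ((N / m : ℕ) : ℝ)) with hM
  have hsub : ExN ε x N ⊆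
      S ∪ M.biUnion fun m => (ExP ε x (N / m) m).image fun q => m * q := by
    intro a ha
    rw [ExN, mem_filter] at ha
    obtain ⟨haN, haE⟩ := ha
    have haI := mem_Icc.1 haN
    by_cases hs : ∀ p : ℕ, p.Prime → p ∣ a → (p : ℝ) ≤ z
    · exact mem_union_left _ (hS a haN hs)
    · push Not at hs
      obtain ⟨p, hp, ⟨k, hk⟩, hpz⟩ := hs
      have hk0 : 0 < k := by
        rcases Nat.eq_zero_or_pos k with h | h
        · rw [h, mul_zero] at hk; omega
        · exact h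
      have hpk : p ≤ N / k := (Nat.le_div_iff_mul_le hk0).2 (hk ▸ haI.2)
      have hkN : k ≤ N := by
        calc k ≤ p * k := Nat.le_mul_of_pos_left k hp.pos
          _ = a := hk.symm
          _ ≤ N := haI.2
      apply mem_union_right
      rw [mem_biUnion]
      refine ⟨k, ?_, ?_⟩
      · rw [hM, mem_filter, mem_Icc]
        exact ⟨⟨hk0, hkN⟩, hpz.trans_le (by exact_mod_cast hpk)⟩
      · rw [mem_image]
        refine ⟨p, ?_, by rw [hk, mul_comm]⟩
        rw [ExP, mem_filter]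
        refine ⟨?_, ?_⟩
        · rw [PP, mem_filter, mem_range]
          exact ⟨by omega, hp⟩
        · have : ((k : ℤ) * (p : ℤ)) = (a : ℤ) := by rw [hk]; push_cast; ring
          rw [this]
          exact haE
  refine (card_le_card hsub).trans ((card_union_le _ _).trans ?_)
  gcongr
  exact card_biUnion_le.trans (sum_le_sum fun m _ => card_image_le)

theorem integers_clean (hP : PrimesResult') (h8 : SmoothFew) : IntegersResult' := by
  classical
  intro ε hε
  obtain ⟨u, hu, N₀, hN₀⟩ := h8 (ε / 2) (half_pos hε)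
  obtain ⟨c, hc, hPc⟩ := hP 1 one_pos
  obtain ⟨x₁, hx₁⟩ := hPc ε hε
  obtain ⟨Y₀, hY₀⟩ := int_cheb
  have hu' : (0 : ℝ) < u := by exact_mod_cast hu
  have hu1 : (1 : ℝ) ≤ u := by exact_mod_cast hu
  have hlog : Tendsto (fun x : ℕ => Real.log (x : ℝ)) atTop atTop :=
    Real.tendsto_log_atTop.comp tendsto_natCast_atTop_atTop
  have e1 : ∀ᶠ x : ℕ in atTop, (Y₀ : ℝ) ≤ Real.log x := hlog.eventually_ge_atTop _
  have e2 : ∀ᶠ x : ℕ in atTop, (N₀ : ℝ) ≤ Real.log x := hlog.eventually_ge_atTop _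
  have e3 : ∀ᶠ x : ℕ in atTop, (3 : ℝ) ≤ Real.log x := hlog.eventually_ge_atTop _
  have e4 : ∀ᶠ x : ℕ in atTop, 12 * u / ε ≤ (Real.log x) ^ c :=
    ((tendsto_rpow_atTop hc).comp hlog).eventually_ge_atTop _
  have e5 : ∀ᶠ x : ℕ in atTop, Real.log x ≤ √x := by
    have h := (isLittleO_log_rpow_atTop (r := 1 / 2) (by norm_num)).bound (c := 1) one_pos
    have h2 := tendsto_natCast_atTop_atTop (R := ℝ) |>.eventually h
    filter_upwards [h2] with x hx
    rw [one_mul, Real.norm_of_nonneg (Real.log_natCast_nonneg x),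
      Real.norm_of_nonneg (by positivity), ← Real.sqrt_eq_rpow] at hx
    exact hx
  obtain ⟨x₀, hx₀⟩ := eventually_atTop.1 (e1.and (e2.and (e3.and (e4.and e5))))
  refine ⟨3 * u, by positivity, max x₀ x₁, fun x hx N hN hNx => ?_⟩
  obtain ⟨h1, h2, h3, h4, h5⟩ := hx₀ x (le_of_max_le_left hx)
  have hx1 := hx₁ x (le_of_max_le_right hx)
  have hl0 : (0 : ℝ) < Real.log x := by linarith
  -- (log x)^3 ≤ N^(1/u)
  have hz : (Real.log x) ^ ((2 : ℝ) + 1) ≤ (N : ℝ) ^ (1 / (u : ℝ)) := by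
    have h := Real.rpow_le_rpow (by positivity) hN (z := 1 / (u : ℝ)) (by positivity)
    rw [← Real.rpow_mul hl0.le] at h
    have h' : (3 * (u : ℝ)) * (1 / (u : ℝ)) = 2 + 1 := by field_simp; norm_num
    rwa [h'] at h
  have hlz : Real.log x ≤ (Real.log x) ^ ((2 : ℝ) + 1) := by
    have := Real.rpow_le_rpow_of_exponent_le (x := Real.log x) (by linarith)
      (show (1 : ℝ) ≤ 2 + 1 by norm_num)
    rwa [Real.rpow_one] at this
  have hlN : Real.log x ≤ N := by
    have := Real.rpow_le_rpow_of_exponent_le (x := Real.log x) (by linarith)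
      (show (1 : ℝ) ≤ 3 * u by linarith)
    rw [Real.rpow_one] at this
    exact this.trans hN
  have hNN₀ : N₀ ≤ N := by exact_mod_cast h2.trans hlN
  have hN3 : (3 : ℝ) ≤ N := h3.trans hlN
  have hN0 : (0 : ℝ) < N := by linarith
  have hlogN : 1 ≤ Real.log N := by
    rw [Real.le_log_iff_exp_le hN0]
    have := Real.exp_one_lt_d9
    linarith
  have hlogN0 : 0 < Real.log N := by linarith
  have hcov := int_cover ε x N
    {a ∈ Icc 1 N | ∀ p : ℕ, p.Prime → p ∣ a → (p : ℝ) ≤ (N : ℝ) ^ (1 / (u : ℝ))}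
    ((N : ℝ) ^ (1 / (u : ℝ))) (fun a ha h => mem_filter.2 ⟨ha, h⟩)
  have hcov' : (#(ExN ε x N) : ℝ) ≤
      (#{a ∈ Icc 1 N | ∀ p : ℕ, p.Prime → p ∣ a → (p : ℝ) ≤ (N : ℝ) ^ (1 / (u : ℝ))} : ℝ) +
      ∑ m ∈ (Icc 1 N).filter (fun m : ℕ => (N : ℝ) ^ (1 / (u : ℝ)) < ((N / m : ℕ) : ℝ)),
        (#(ExP ε x (N / m) m) : ℝ) := by
    exact_mod_cast hcov
  refine hcov'.trans ?_
  have hsm := hN₀ N hNN₀
  have hsum : ∑ m ∈ (Icc 1 N).filter (fun m : ℕ => (N : ℝ) ^ (1 / (u : ℝ)) < ((N / m : ℕ) : ℝ)),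
        (#(ExP ε x (N / m) m) : ℝ) ≤ ε / 2 * N := by
    have hterm : ∀ m ∈ (Icc 1 N).filter
          (fun m : ℕ => (N : ℝ) ^ (1 / (u : ℝ)) < ((N / m : ℕ) : ℝ)),
        (#(ExP ε x (N / m) m) : ℝ)
        ≤ 3 * u * N / (Real.log N * (Real.log x) ^ c) * (1 / m) := by
      intro m hm
      rw [mem_filter, mem_Icc] at hm
      obtain ⟨⟨hm1, hmN⟩, hmz⟩ := hm
      have hm0 : (0 : ℝ) < m := by exact_mod_cast hm1
      have hyz : (Real.log x) ^ ((2 : ℝ) + 1) ≤ ((N / m : ℕ) : ℝ) := hz.trans hmz.le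
      have hyx : N / m ≤ x := (Nat.div_le_self N m).trans hNx
      have hyR : ((N / m : ℕ) : ℝ) ≤ (N : ℝ) / m := Nat.cast_div_le
      have hmlog : Real.log |((m : ℤ) : ℝ)| ≤ √x := by
        have e : |((m : ℤ) : ℝ)| = (m : ℝ) := by simp
        rw [e]
        refine le_trans (Real.log_le_log hm0 ?_) h5
        exact_mod_cast hmN.trans hNx
      have hb := hx1 (N / m) hyz hyx (m : ℤ) (by omega) hmlog
      refine hb.trans ?_
      have hyY : Y₀ ≤ N / m := by
        have : (Y₀ : ℝ) ≤ ((N / m : ℕ) : ℝ) := h1.trans (hlz.trans hyz)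
        exact_mod_cast this
      have hpi := hY₀ _ hyY
      have hlogy : Real.log N / u ≤ Real.log ((N / m : ℕ) : ℝ) := by
        have := Real.log_le_log (by positivity) hmz.le
        rw [Real.log_rpow hN0] at this
        calc Real.log N / u = 1 / u * Real.log N := by ring
          _ ≤ _ := this
      have hlogy0 : 0 < Real.log N / u := by positivity
      have hpi2 : (Nat.primeCounting (N / m) : ℝ) ≤ 3 * (N / m : ℝ) / (Real.log N / u) := by
        refine hpi.trans ?_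
        gcongr
      calc (Nat.primeCounting (N / m) : ℝ) / (Real.log x) ^ c
          ≤ (3 * (N / m : ℝ) / (Real.log N / u)) / (Real.log x) ^ c := by gcongr
        _ = 3 * u * N / (Real.log N * (Real.log x) ^ c) * (1 / m) := by
          field_simp
    refine (sum_le_sum hterm).trans ?_
    rw [← mul_sum]
    have hh : ∑ m ∈ (Icc 1 N).filter
          (fun m : ℕ => (N : ℝ) ^ (1 / (u : ℝ)) < ((N / m : ℕ) : ℝ)), (1 : ℝ) / m
        ≤ 2 * Real.log N := by
      refine (sum_le_sum_of_subset_of_nonneg (filter_subset _ _) fun m _ _ => by positivity).trans ?_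
      refine (int_harm N).trans ?_
      linarith
    have hlc : 0 < (Real.log x) ^ c := by positivity
    calc 3 * u * N / (Real.log N * (Real.log x) ^ c) *
          ∑ m ∈ (Icc 1 N).filter
            (fun m : ℕ => (N : ℝ) ^ (1 / (u : ℝ)) < ((N / m : ℕ) : ℝ)), (1 : ℝ) / m
        ≤ 3 * u * N / (Real.log N * (Real.log x) ^ c) * (2 * Real.log N) := by gcongr
      _ = (6 * u / (Real.log x) ^ c) * N := by field_simp; norm_num
      _ ≤ ε / 2 * N := by
        refine mul_le_mul_of_nonneg_right ?_ hN0.le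
        rw [div_le_iff₀ hlc]
        rw [div_le_iff₀ hε] at h4
        linarith
  calc _ ≤ ε / 2 * N + ε / 2 * N := add_le_add hsm hsum
    _ = ε * N := by ring

theorem primesResult' (hP : PrimesResult) : PrimesResult' := by
  classical
  intro δ hδ
  obtain ⟨c, hc, h⟩ := hP δ hδ
  refine ⟨c, hc, fun ε hε => ?_⟩
  obtain ⟨x₀, hx₀⟩ := h ε hε
  refine ⟨x₀, fun x hx y hy hyx m hm hml => le_trans ?_ (hx₀ x hx y hy hyx m hm hml)⟩
  rw [Nat.cast_le]
  rw [← card_map (Nat.castEmbedding (R := ℤ))]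
  refine card_le_card fun q hq => ?_
  rw [Finset.mem_map] at hq
  obtain ⟨q', hq', rfl⟩ := hq
  rw [ExP, mem_filter] at hq'
  rw [mem_filter]
  refine ⟨?_, hq'.2⟩
  simpa [Finset.bind_def, Finset.pure_def, Finset.mem_sup] using hq'.1

theorem integersResult_of (h : IntegersResult') : IntegersResult := by
  classical
  intro ε hε
  obtain ⟨C, hC, x₀, h⟩ := h ε hε
  refine ⟨C, hC, x₀, fun x hx N hN hNx => le_trans ?_ (h x hx N hN hNx)⟩
  rw [Nat.cast_le]
  rw [← card_map (Nat.castEmbedding (R := ℤ))]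
  refine card_le_card fun a ha => ?_
  rw [mem_filter, mem_Icc] at ha
  obtain ⟨⟨h1, h2⟩, h3⟩ := ha
  rw [Finset.mem_map]
  refine ⟨a.toNat, ?_, ?_⟩
  · rw [ExN, mem_filter, mem_Icc]
    have e : ((a.toNat : ℕ) : ℤ) = a := Int.toNat_of_nonneg (by omega)
    refine ⟨⟨by omega, by omega⟩, ?_⟩
    rw [e]
    exact h3
  · exact Int.toNat_of_nonneg (by omega)

theorem integers (hP : PrimesResult) (h8 : SmoothFew) : IntegersResult :=
  integersResult_of (integers_clean (primesResult' hP) h8)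

end Pool.Agent.H386R2.Artin
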