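import Mathlib
import Pool.Agent.H386R2.Artin.Stubs
import Pool.Agent.H386R2.Artin.Average
import Pool.Agent.H386R2.Artin.Integers

/-! From averages over arbitrary dense sets of primes to a small exceptional set. -/

namespace Pool.Agent.H386R2.Artin

open Finset Filter Topology

theorem primes (h : Average) : PrimesResult' := by
  classical
  intro δ hδ
  obtain ⟨c, hc, h⟩ := h (min δ 1) (lt_min hδ one_pos) (min_le_right _ _)
  refine ⟨c / 2, by positivity, fun ε hε => ?_⟩
  obtain ⟨x₁, hx₁⟩ := h (ε / 2) (by positivity)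
  obtain ⟨y₀, hy3, hy₀⟩ := pi_lower
  have hev := ((tlog.eventually_ge_atTop (max 3 (y₀ : ℝ))).and
    (((tendsto_rpow_atTop (show 0 < c / 2 by positivity)).comp tlog).eventually_ge_atTop 2)).and
    ((eventually_ge_atTop x₁).and (eventually_ge_atTop y₀))
  obtain ⟨x₀, hx₀⟩ := eventually_atTop.1 hev
  refine ⟨x₀, fun x hxx y hy hyx m hm hmx => ?_⟩
  obtain ⟨⟨hX, hXc2⟩, hxx1, hxxy⟩ := hx₀ x hxx
  simp only [Function.comp] at hXc2
  set P : ℝ := (Nat.primeCounting x : ℝ) with hPd
  set X : ℝ := Real.log x with hXd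
  have hX3 : 3 ≤ X := le_trans (le_max_left _ _) hX
  have hX0 : 0 < X := by linarith
  have hX1 : 1 ≤ X := by linarith
  have hx0 : (0 : ℝ) < x := by
    have : 3 ≤ x := le_trans hy3 hxxy
    exact_mod_cast (by omega : 0 < x)
  have hP0 : 0 < P := lt_of_lt_of_le (by positivity) (hy₀ x hxxy)
  have hyδ : X ^ (2 + min δ 1) ≤ (y : ℝ) :=
    le_trans (Real.rpow_le_rpow_of_exponent_le hX1 (by linarith [min_le_left δ 1])) hy
  have hy2 : X ^ (1 : ℝ) ≤ (y : ℝ) :=
    le_trans (Real.rpow_le_rpow_of_exponent_le hX1 (by linarith)) hy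
  rw [Real.rpow_one] at hy2
  have hyy0 : y₀ ≤ y := by exact_mod_cast le_trans (le_trans (le_max_right _ _) hX) hy2
  have hy0 : (0 : ℝ) < y := by linarith
  have hly : 0 < Real.log y := Real.log_pos (by linarith)
  have hpiy : 0 < (Nat.primeCounting y : ℝ) := lt_of_lt_of_le (by positivity) (hy₀ y hyy0)
  have hXc : 0 < X ^ c := Real.rpow_pos_of_pos hX0 _
  set A : ℝ := artinC with hA
  -- a one-sided exceptional set is small
  have side : ∀ s : ℝ, (s = 1 ∨ s = -1) →
      (#((PP y).filter (fun q : ℕ => ε < s * ((NA (m * q) x : ℝ) / P - A))) : ℝ) ≤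
        (Nat.primeCounting y : ℝ) / X ^ c := by
    intro s hs
    by_contra hcon
    push Not at hcon
    set E := (PP y).filter (fun q : ℕ => ε < s * ((NA (m * q) x : ℝ) / P - A)) with hEd
    have hEp : ∀ q ∈ E, q.Prime ∧ q ≤ y := by
      intro q hq
      rw [hEd, mem_filter, PP, mem_filter, mem_range] at hq
      exact ⟨hq.1.2, by omega⟩
    have hav := hx₁ x hxx1 y hyδ hyx E hEp hcon.le m hm hmx
    have he0 : (0 : ℝ) < #E := lt_trans (by positivity) hcon
    have hlow : ε * P * #E ≤ s * (∑ q ∈ E, (NA (m * q) x : ℝ) - A * P * #E) := by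
      have h1 : s * (∑ q ∈ E, (NA (m * q) x : ℝ) - A * P * #E) =
          ∑ q ∈ E, P * (s * ((NA (m * q) x : ℝ) / P - A)) := by
        have h2 : ∀ q ∈ E, P * (s * ((NA (m * q) x : ℝ) / P - A)) =
            s * (NA (m * q) x : ℝ) - s * A * P := by
          intro q _
          field_simp
        rw [Finset.sum_congr rfl h2, Finset.sum_sub_distrib, ← Finset.mul_sum, Finset.sum_const,
          nsmul_eq_mul]
        ring
      rw [h1]
      have h3 : ∑ _q ∈ E, P * ε ≤ ∑ q ∈ E, P * (s * ((NA (m * q) x : ℝ) / P - A)) := by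
        apply Finset.sum_le_sum
        intro q hq
        rw [hEd, mem_filter] at hq
        exact mul_le_mul_of_nonneg_left hq.2.le hP0.le
      rw [Finset.sum_const, nsmul_eq_mul] at h3
      linarith
    have hup : s * (∑ q ∈ E, (NA (m * q) x : ℝ) - A * P * #E) ≤ ε / 2 * P * #E := by
      rcases hs with hs | hs
      · rw [hs, one_mul]; exact le_trans (le_abs_self _) hav
      · rw [hs]
        have := neg_abs_le (∑ q ∈ E, (NA (m * q) x : ℝ) - A * P * #E)
        linarith
    have hpos : 0 < ε * P * #E := by positivity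
    have : ε / 2 * P * #E = (ε * P * #E) / 2 := by ring
    linarith
  have h1 := side 1 (Or.inl rfl)
  have h2 := side (-1) (Or.inr rfl)
  have hsub : (PP y).filter (fun q : ℕ => ε < |(NA (m * q) x : ℝ) / P - A|) ⊆
      (PP y).filter (fun q : ℕ => ε < 1 * ((NA (m * q) x : ℝ) / P - A)) ∪
      (PP y).filter (fun q : ℕ => ε < (-1) * ((NA (m * q) x : ℝ) / P - A)) := by
    intro q hq
    rw [mem_filter] at hq
    rw [mem_union, mem_filter, mem_filter]
    rcases lt_abs.1 hq.2 with h3 | h3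
    · left; exact ⟨hq.1, by linarith⟩
    · right; exact ⟨hq.1, by linarith⟩
  have hcard : (#((PP y).filter (fun q : ℕ => ε < |(NA (m * q) x : ℝ) / P - A|)) : ℝ) ≤
      2 * ((Nat.primeCounting y : ℝ) / X ^ c) := by
    have h3 := (card_le_card hsub).trans (card_union_le _ _)
    have h4 : (#((PP y).filter (fun q : ℕ => ε < |(NA (m * q) x : ℝ) / P - A|)) : ℝ) ≤
      (#((PP y).filter (fun q : ℕ => ε < 1 * ((NA (m * q) x : ℝ) / P - A))) : ℝ) +
      (#((PP y).filter (fun q : ℕ => ε < (-1) * ((NA (m * q) x : ℝ) / P - A))) : ℝ) := by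
      exact_mod_cast h3
    linarith
  rw [ExP]
  refine le_trans hcard ?_
  have hXX : X ^ c = X ^ (c / 2) * X ^ (c / 2) := by
    rw [← Real.rpow_add hX0]; ring_nf
  have hXc20 : 0 < X ^ (c / 2) := Real.rpow_pos_of_pos hX0 _
  rw [hXX, mul_div_assoc', div_le_div_iff₀ (by positivity) hXc20]
  nlinarith [mul_pos hpiy hXc20]

end Pool.Agent.H386R2.Artin
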