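import Mathlib
import Pool.Agent.H386R2.Artin.Stubs
import Pool.Agent.H305R2.MertensM

/-! T8: few smooth numbers (Turan variance). -/

namespace Pool.Agent.H386R2.Artin

open Finset Filter Topology

set_option autoImplicit false

lemma smf_card (N q : ℕ) : (#{a ∈ Icc 1 N | q ∣ a} : ℕ) = N / q := by
  have := Nat.Ioc_filter_dvd_card_eq_div N q
  rw [← this]
  rfl

lemma smf_variance (N : ℕ) (P : Finset ℕ) (hP : ∀ q ∈ P, q.Prime ∧ q ≤ Nat.sqrt N) :
    (#{a ∈ Icc 1 N | ∀ q ∈ P, ¬ q ∣ a} : ℝ) * (∑ q ∈ P, 1 / (q : ℝ)) ^ 2 ≤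
      N * (∑ q ∈ P, 1 / (q : ℝ)) + 2 * (∑ q ∈ P, 1 / (q : ℝ)) * √N := by
  classical
  set Λ : ℝ := ∑ q ∈ P, 1 / (q : ℝ) with hΛ
  have hΛ0 : 0 ≤ Λ := Finset.sum_nonneg fun q _ => by positivity
  let w : ℕ → ℝ := fun a => ∑ q ∈ P, (if q ∣ a then (1 : ℝ) else 0)
  have h1 : (N : ℝ) * Λ - √N ≤ ∑ a ∈ Icc 1 N, w a := by
    have e1 : ∑ a ∈ Icc 1 N, w a = ∑ q ∈ P, ((N / q : ℕ) : ℝ) := by
      simp only [w]
      rw [Finset.sum_comm]
      refine Finset.sum_congr rfl fun q _ => ?_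
      rw [← smf_card N q, Finset.card_filter]
      push_cast
      rfl
    rw [e1]
    have e2 : ∀ q ∈ P, (N : ℝ) / q - 1 ≤ ((N / q : ℕ) : ℝ) := by
      intro q hq
      have hq0 : 0 < q := (hP q hq).1.pos
      have h3 : (N : ℝ) / q < ((N / q : ℕ) : ℝ) + 1 := by
        rw [div_lt_iff₀ (by exact_mod_cast hq0)]
        have := Nat.lt_div_mul_add (a := N) hq0
        have h4 : N < (N / q + 1) * q := by
          calc N < N / q * q + q := this
            _ = (N / q + 1) * q := by ring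
        exact_mod_cast h4
      linarith
    have e3 : (#P : ℝ) ≤ √N := by
      have : #P ≤ Nat.sqrt N := by
        have hsub : P ⊆ Icc 1 (Nat.sqrt N) := by
          intro q hq
          exact Finset.mem_Icc.mpr ⟨(hP q hq).1.pos, (hP q hq).2⟩
        calc #P ≤ #(Icc 1 (Nat.sqrt N)) := Finset.card_le_card hsub
          _ = Nat.sqrt N := by simp
      calc (#P : ℝ) ≤ (Nat.sqrt N : ℝ) := by exact_mod_cast this
        _ ≤ √N := Real.nat_sqrt_le_real_sqrt
    calc (N : ℝ) * Λ - √N ≤ N * Λ - #P := by linarith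
      _ = ∑ q ∈ P, ((N : ℝ) / q - 1) := by
        rw [Finset.sum_sub_distrib, hΛ, Finset.mul_sum]
        simp [div_eq_mul_inv]
      _ ≤ _ := Finset.sum_le_sum e2
  have h2 : ∑ a ∈ Icc 1 N, (w a) ^ 2 ≤ N * Λ + N * Λ ^ 2 := by
    have e1 : ∀ a, (w a) ^ 2 = ∑ q ∈ P, ∑ q' ∈ P, (if q ∣ a ∧ q' ∣ a then (1 : ℝ) else 0) := by
      intro a
      rw [sq]
      simp only [w]
      rw [Finset.sum_mul_sum]
      refine Finset.sum_congr rfl fun q _ => Finset.sum_congr rfl fun q' _ => ?_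
      split_ifs <;> simp_all
    have e2 : ∀ q ∈ P, ∀ q' ∈ P, ∑ a ∈ Icc 1 N, (if q ∣ a ∧ q' ∣ a then (1 : ℝ) else 0) ≤
        (if q = q' then (N : ℝ) / q else 0) + (N : ℝ) * ((1 / (q : ℝ)) * (1 / (q' : ℝ))) := by
      intro q hq q' hq'
      have hq0 : (0 : ℝ) < q := by exact_mod_cast (hP q hq).1.pos
      have hq0' : (0 : ℝ) < q' := by exact_mod_cast (hP q' hq').1.pos
      by_cases hqq : q = q'
      · subst hqq
        rw [if_pos rfl]
        have : ∑ a ∈ Icc 1 N, (if q ∣ a ∧ q ∣ a then (1 : ℝ) else 0) = ((N / q : ℕ) : ℝ) := by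
          rw [← smf_card N q, Finset.card_filter]
          push_cast
          simp
        rw [this]
        have h3 : ((N / q : ℕ) : ℝ) ≤ (N : ℝ) / q := Nat.cast_div_le
        have h4 : 0 ≤ (N : ℝ) * ((1 / (q : ℝ)) * (1 / (q : ℝ))) := by positivity
        linarith
      · rw [if_neg hqq]
        have hcop : Nat.Coprime q q' := (Nat.coprime_primes (hP q hq).1 (hP q' hq').1).mpr hqq
        have : ∑ a ∈ Icc 1 N, (if q ∣ a ∧ q' ∣ a then (1 : ℝ) else 0) = ((N / (q * q') : ℕ) : ℝ) := by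
          rw [← smf_card N (q * q'), Finset.card_filter]
          push_cast
          refine Finset.sum_congr rfl fun a _ => ?_
          congr 1
          simp only [eq_iff_iff]
          exact ⟨fun h => hcop.mul_dvd_of_dvd_of_dvd h.1 h.2,
            fun h => ⟨(dvd_mul_right q q').trans h, (dvd_mul_left q' q).trans h⟩⟩
        rw [this, zero_add]
        calc ((N / (q * q') : ℕ) : ℝ) ≤ (N : ℝ) / ((q * q' : ℕ) : ℝ) := Nat.cast_div_le
          _ = (N : ℝ) * ((1 / (q : ℝ)) * (1 / (q' : ℝ))) := by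
            push_cast
            field_simp
    calc ∑ a ∈ Icc 1 N, (w a) ^ 2
        = ∑ q ∈ P, ∑ q' ∈ P, ∑ a ∈ Icc 1 N, (if q ∣ a ∧ q' ∣ a then (1 : ℝ) else 0) := by
          rw [Finset.sum_congr rfl (fun a _ => e1 a), Finset.sum_comm]
          refine Finset.sum_congr rfl fun q _ => ?_
          rw [Finset.sum_comm]
      _ ≤ ∑ q ∈ P, ∑ q' ∈ P, ((if q = q' then (N : ℝ) / q else 0) +
            (N : ℝ) * ((1 / (q : ℝ)) * (1 / (q' : ℝ)))) :=
          Finset.sum_le_sum fun q hq => Finset.sum_le_sum fun q' hq' => e2 q hq q' hq'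
      _ = N * Λ + N * Λ ^ 2 := by
          simp_rw [Finset.sum_add_distrib]
          congr 1
          · rw [hΛ, Finset.mul_sum]
            refine Finset.sum_congr rfl fun q hq => ?_
            rw [Finset.sum_ite_eq, if_pos hq]
            ring
          · rw [sq, hΛ, Finset.sum_mul_sum, Finset.mul_sum]
            refine Finset.sum_congr rfl fun q _ => ?_
            rw [Finset.mul_sum]
  have h3 : ∑ a ∈ Icc 1 N, (w a - Λ) ^ 2 ≤ N * Λ + 2 * Λ * √N := by
    have e1 : ∑ a ∈ Icc 1 N, (w a - Λ) ^ 2 =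
        ∑ a ∈ Icc 1 N, (w a) ^ 2 - 2 * Λ * ∑ a ∈ Icc 1 N, w a + N * Λ ^ 2 := by
      have : ∀ a, (w a - Λ) ^ 2 = (w a) ^ 2 - 2 * Λ * w a + Λ ^ 2 := fun a => by ring
      simp_rw [this]
      rw [Finset.sum_add_distrib, Finset.sum_sub_distrib, ← Finset.mul_sum]
      simp
    rw [e1]
    have h4 : 2 * Λ * (N * Λ - √N) ≤ 2 * Λ * ∑ a ∈ Icc 1 N, w a :=
      mul_le_mul_of_nonneg_left h1 (by positivity)
    nlinarith
  have h5 : (#{a ∈ Icc 1 N | ∀ q ∈ P, ¬ q ∣ a} : ℝ) * Λ ^ 2 ≤ ∑ a ∈ Icc 1 N, (w a - Λ) ^ 2 := by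
    calc (#{a ∈ Icc 1 N | ∀ q ∈ P, ¬ q ∣ a} : ℝ) * Λ ^ 2
        = ∑ a ∈ (Icc 1 N).filter (fun a => ∀ q ∈ P, ¬ q ∣ a), (w a - Λ) ^ 2 := by
          rw [← nsmul_eq_mul, ← Finset.sum_const]
          refine Finset.sum_congr rfl fun a ha => ?_
          have ha2 := (Finset.mem_filter.mp ha).2
          have : w a = 0 := by
            simp only [w]
            refine Finset.sum_eq_zero fun q hq => ?_
            rw [if_neg (ha2 q hq)]
          rw [this]
          ring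
      _ ≤ _ := Finset.sum_le_sum_of_subset_of_nonneg (Finset.filter_subset _ _)
          (fun a _ _ => sq_nonneg _)
  exact h5.trans h3

lemma smf_lower (u : ℕ) (hu : 4 ≤ u) : ∃ N₀ : ℕ, ∀ N : ℕ, N₀ ≤ N →
    Real.log ((u : ℝ) / 4) - 1 ≤
      ∑ q ∈ (Icc 1 (Nat.sqrt N)).filter (fun q : ℕ => q.Prime ∧ (N : ℝ) ^ (1 / (u : ℝ)) < (q : ℝ)),
        1 / (q : ℝ) := by
  obtain ⟨M, hM⟩ := Pool.Agent.H305R2.mertens_inv_tendsto
  set S : ℕ → ℝ := fun n => ∑ p ∈ (Finset.Icc 1 n).filter Nat.Prime, (1 : ℝ) / p with hS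
  have hM' : ∀ᶠ n : ℕ in atTop, |S n - Real.log (Real.log n) - M| < 1 / 2 := by
    have := (Metric.tendsto_nhds.mp hM) (1 / 2) (by norm_num)
    filter_upwards [this] with n hn
    rw [Real.dist_eq] at hn
    exact hn
  have hu0 : (0 : ℝ) < u := by
    have : (4 : ℝ) ≤ u := by exact_mod_cast hu
    linarith
  have hf : Tendsto (fun N : ℕ => ⌊(N : ℝ) ^ (1 / (u : ℝ))⌋₊) atTop atTop := by
    refine tendsto_nat_floor_atTop.comp ?_
    exact (tendsto_rpow_atTop (by positivity)).comp tendsto_natCast_atTop_atTop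
  have hs : Tendsto (fun N : ℕ => Nat.sqrt N) atTop atTop := by
    refine tendsto_atTop.mpr fun b => ?_
    filter_upwards [eventually_ge_atTop (b * b)] with N hN
    exact Nat.le_sqrt.mpr hN
  have hev : ∀ᶠ N : ℕ in atTop, Real.log ((u : ℝ) / 4) - 1 ≤
      ∑ q ∈ (Icc 1 (Nat.sqrt N)).filter (fun q : ℕ => q.Prime ∧ (N : ℝ) ^ (1 / (u : ℝ)) < (q : ℝ)),
        1 / (q : ℝ) := by
    filter_upwards [hf.eventually hM', hs.eventually hM', hf.eventually (eventually_ge_atTop 2),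
      eventually_ge_atTop 16] with N h1 h2 h3 h4
    set f := ⌊(N : ℝ) ^ (1 / (u : ℝ))⌋₊ with hfdef
    set s := Nat.sqrt N with hsdef
    have hN0 : (16 : ℝ) ≤ N := by exact_mod_cast h4
    have hz0 : 0 ≤ (N : ℝ) ^ (1 / (u : ℝ)) := by positivity
    have hlogN : 0 < Real.log N := Real.log_pos (by linarith)
    -- sum as difference
    have hsum : S s - S f ≤ ∑ q ∈ (Icc 1 s).filter (fun q : ℕ => q.Prime ∧ (N : ℝ) ^ (1 / (u : ℝ)) < (q : ℝ)),
        1 / (q : ℝ) := by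
      have e1 : (Icc 1 s).filter Nat.Prime ⊆
          ((Icc 1 s).filter (fun q : ℕ => q.Prime ∧ (N : ℝ) ^ (1 / (u : ℝ)) < (q : ℝ))) ∪
            (Icc 1 f).filter Nat.Prime := by
        intro q hq
        rw [Finset.mem_filter, Finset.mem_Icc] at hq
        rw [Finset.mem_union, Finset.mem_filter, Finset.mem_filter, Finset.mem_Icc, Finset.mem_Icc]
        by_cases h : (N : ℝ) ^ (1 / (u : ℝ)) < q
        · left; exact ⟨hq.1, hq.2, h⟩
        · right
          rw [not_lt] at h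
          exact ⟨⟨hq.1.1, Nat.le_floor h⟩, hq.2⟩
      have e2 : S s ≤ ∑ q ∈ ((Icc 1 s).filter (fun q : ℕ => q.Prime ∧ (N : ℝ) ^ (1 / (u : ℝ)) < (q : ℝ))) ∪
            (Icc 1 f).filter Nat.Prime, 1 / (q : ℝ) :=
        Finset.sum_le_sum_of_subset_of_nonneg e1 (fun q _ _ => by positivity)
      have e3 := Finset.sum_union_inter (s₁ := (Icc 1 s).filter (fun q : ℕ => q.Prime ∧ (N : ℝ) ^ (1 / (u : ℝ)) < (q : ℝ)))
        (s₂ := (Icc 1 f).filter Nat.Prime) (f := fun q : ℕ => 1 / (q : ℝ))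
      have e4 : 0 ≤ ∑ q ∈ ((Icc 1 s).filter (fun q : ℕ => q.Prime ∧ (N : ℝ) ^ (1 / (u : ℝ)) < (q : ℝ))) ∩
            (Icc 1 f).filter Nat.Prime, 1 / (q : ℝ) := Finset.sum_nonneg fun q _ => by positivity
      have e5 : S f = ∑ q ∈ (Icc 1 f).filter Nat.Prime, 1 / (q : ℝ) := rfl
      linarith
    have hls : Real.log N / 4 ≤ Real.log s := by
      have hs1 : 1 ≤ s := Nat.le_sqrt.mpr (by omega)
      have hlt : N < (s + 1) * (s + 1) := Nat.lt_succ_sqrt N
      have hle : N ≤ s ^ 4 := by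
        have hs4 : 4 ≤ s := Nat.le_sqrt.mpr (by omega)
        have : (s + 1) * (s + 1) ≤ s ^ 4 := by
          have h5 : s + 1 ≤ s * s := by nlinarith
          calc (s + 1) * (s + 1) ≤ (s * s) * (s * s) := Nat.mul_le_mul h5 h5
            _ = s ^ 4 := by ring
        omega
      have hle' : (N : ℝ) ≤ (s : ℝ) ^ 4 := by exact_mod_cast hle
      have := Real.log_le_log (by linarith) hle'
      rw [Real.log_pow] at this
      push_cast at this
      linarith
    have hlf : Real.log f ≤ Real.log N / u := by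
      have h5 : (f : ℝ) ≤ (N : ℝ) ^ (1 / (u : ℝ)) := Nat.floor_le hz0
      have h6 : (0 : ℝ) < f := by
        have : (2 : ℝ) ≤ f := by exact_mod_cast h3
        linarith
      have := Real.log_le_log h6 h5
      rw [Real.log_rpow (by linarith)] at this
      calc Real.log f ≤ 1 / (u : ℝ) * Real.log N := this
        _ = Real.log N / u := by ring
    have hlf0 : 0 < Real.log f := Real.log_pos (by
      have : (2 : ℝ) ≤ f := by exact_mod_cast h3
      linarith)
    have hll : Real.log ((u : ℝ) / 4) ≤ Real.log (Real.log s) - Real.log (Real.log f) := by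
      have hls0 : 0 < Real.log s := by linarith
      rw [← Real.log_div hls0.ne' hlf0.ne']
      refine Real.log_le_log (by positivity) ?_
      rw [le_div_iff₀ hlf0]
      calc (u : ℝ) / 4 * Real.log f ≤ (u : ℝ) / 4 * (Real.log N / u) :=
            mul_le_mul_of_nonneg_left hlf (by positivity)
        _ = Real.log N / 4 := by field_simp
        _ ≤ Real.log s := hls
    have h1' := abs_lt.mp h1
    have h2' := abs_lt.mp h2
    linarith [h1'.1, h1'.2, h2'.1, h2'.2]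
  exact eventually_atTop.mp hev

theorem smoothFew : SmoothFew := by
  classical
  intro ε hε
  -- choose u
  obtain ⟨u, hu⟩ := exists_nat_ge (4 * Real.exp (3 / ε + 1) + 4)
  have hu4 : (4 : ℝ) ≤ u := by
    have := Real.exp_pos (3 / ε + 1)
    linarith
  have hu4' : 4 ≤ u := by exact_mod_cast hu4
  obtain ⟨N₀, hN₀⟩ := smf_lower u hu4'
  refine ⟨u, by omega, max N₀ 1, ?_⟩
  intro N hN
  have hN1 : N₀ ≤ N := le_trans (le_max_left _ _) hN
  have hN2 : 1 ≤ N := le_trans (le_max_right _ _) hN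
  have hlow := hN₀ N hN1
  set P := (Icc 1 (Nat.sqrt N)).filter (fun q : ℕ => q.Prime ∧ (N : ℝ) ^ (1 / (u : ℝ)) < (q : ℝ)) with hP
  set Λ := ∑ q ∈ P, 1 / (q : ℝ) with hΛ
  have hlog : 3 / ε + 1 ≤ Real.log ((u : ℝ) / 4) := by
    rw [Real.le_log_iff_exp_le (by positivity)]
    linarith
  have hΛ3 : 3 / ε ≤ Λ := by linarith
  have h3ε : 0 < 3 / ε := by positivity
  have hΛ0 : 0 < Λ := lt_of_lt_of_le h3ε hΛ3
  have hvar := smf_variance N P (fun q hq => by
    rw [hP, Finset.mem_filter, Finset.mem_Icc] at hq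
    exact ⟨hq.2.1, hq.1.2⟩)
  refine le_trans (b := (#{a ∈ Icc 1 N | ∀ q ∈ P, ¬ q ∣ a} : ℝ)) ?_ ?_
  · rw [Nat.cast_le]
    refine Finset.card_le_card ?_
    intro a ha
    rw [Finset.mem_filter] at ha ⊢
    refine ⟨ha.1, fun q hq hqa => ?_⟩
    rw [hP, Finset.mem_filter] at hq
    exact absurd (ha.2 q hq.2.1 hqa) (not_le.mpr hq.2.2)
  set A : ℝ := (#{a ∈ Icc 1 N | ∀ q ∈ P, ¬ q ∣ a} : ℝ) with hA
  have hsq : √(N : ℝ) ≤ N := by
    rw [Real.sqrt_le_left (by positivity)]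
    have : (1 : ℝ) ≤ N := by exact_mod_cast hN2
    nlinarith
  have h6 : A * Λ ≤ 3 * N := by
    have : (A * Λ) * Λ ≤ (3 * N) * Λ := by
      have e : A * Λ ^ 2 = (A * Λ) * Λ := by ring
      rw [← hΛ, e] at hvar
      have h7 : 2 * Λ * √(N : ℝ) ≤ 2 * Λ * N := mul_le_mul_of_nonneg_left hsq (by positivity)
      linarith
    exact le_of_mul_le_mul_right this hΛ0
  have hA0 : 0 ≤ A := by positivity
  have h8 : A * (3 / ε) ≤ 3 * N := le_trans (mul_le_mul_of_nonneg_left hΛ3 hA0) h6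
  have h9 : A * 3 ≤ 3 * N * ε := by
    have := mul_le_mul_of_nonneg_right h8 hε.le
    calc A * 3 = A * (3 / ε) * ε := by field_simp
      _ ≤ 3 * N * ε := this
  linarith

end Pool.Agent.H386R2.Artin
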