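import Mathlib
import Pool.Agent.Cov.PNT
import Pool.Agent.H386R2.Artin.Stubs

/-! T4: the average of `gL` over shifted primes. -/

namespace Pool.Agent.H386R2.Artin

open Finset Filter Topology ArithmeticFunction

/-- primes `p ≤ x` with `k ∣ p - 1` -/
def PK (k x : ℕ) : Finset ℕ := (PP x).filter (fun p => k ∣ p - 1)

lemma card_PP (x : ℕ) : #(PP x) = Nat.primeCounting x := by
  rw [PP, Nat.primeCounting, Nat.primeCounting', Nat.count_eq_card_filter_range]

lemma class_iff_dvd (k p : ℕ) (hp : p.Prime) : ((p : ℕ) : ZMod k) = 1 ↔ k ∣ p - 1 := by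
  have h1 : ((p - 1 : ℕ) : ZMod k) = (p : ZMod k) - 1 := by
    rw [Nat.cast_sub hp.one_lt.le]; simp
  rw [← ZMod.natCast_eq_zero_iff, h1, sub_eq_zero]

lemma PK_bounds (k x : ℕ) :
    |((#(PK k x) : ℝ) * Real.log x - ∑ n ∈ Icc 1 x, vonMangoldt.residueClass (1 : ZMod k) n)|
      ≤ ((Nat.primeCounting x : ℝ) * Real.log x - Chebyshev.theta x) +
        (Chebyshev.psi x - Chebyshev.theta x) := by
  classical
  -- the theta sum
  have hθ : Chebyshev.theta (x : ℝ) = ∑ p ∈ PP x, Real.log p := by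
    rw [Chebyshev.theta, Nat.floor_natCast, PP]
    apply Finset.sum_congr _ (fun _ _ => rfl)
    ext p
    simp only [mem_filter, mem_Ioc, mem_range]
    constructor
    · rintro ⟨⟨h1, h2⟩, h3⟩; exact ⟨by omega, h3⟩
    · rintro ⟨h1, h2⟩; exact ⟨⟨h2.pos, by omega⟩, h2⟩
  have hψ : Chebyshev.psi (x : ℝ) = ∑ n ∈ Icc 1 x, vonMangoldt n := by
    rw [Chebyshev.psi, Nat.floor_natCast]
    apply Finset.sum_congr _ (fun _ _ => rfl)
    ext p; simp [Nat.succ_le_iff]
  have hsub : PP x ⊆ Icc 1 x := by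
    intro p hp
    simp only [PP, mem_filter, mem_range] at hp
    simp only [mem_Icc]
    exact ⟨hp.2.pos, by omega⟩
  -- split
  have h1 : 0 ≤ (#(PK k x) : ℝ) * Real.log x - ∑ p ∈ PK k x, Real.log p := by
    rw [← nsmul_eq_mul, ← Finset.sum_const, ← Finset.sum_sub_distrib]
    apply Finset.sum_nonneg
    intro p hp
    simp only [PK, PP, mem_filter, mem_range] at hp
    rw [sub_nonneg]
    apply Real.log_le_log
    · exact_mod_cast hp.1.2.pos
    · exact_mod_cast Nat.lt_succ_iff.mp hp.1.1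
  have h2 : (#(PK k x) : ℝ) * Real.log x - ∑ p ∈ PK k x, Real.log p ≤
      (Nat.primeCounting x : ℝ) * Real.log x - Chebyshev.theta x := by
    rw [hθ, ← card_PP, ← nsmul_eq_mul, ← nsmul_eq_mul, ← Finset.sum_const, ← Finset.sum_const,
      ← Finset.sum_sub_distrib, ← Finset.sum_sub_distrib]
    apply Finset.sum_le_sum_of_subset_of_nonneg (Finset.filter_subset _ _)
    intro p hp _
    simp only [PP, mem_filter, mem_range] at hp
    rw [sub_nonneg]
    apply Real.log_le_log
    · exact_mod_cast hp.2.pos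
    · exact_mod_cast Nat.lt_succ_iff.mp hp.1
  have hres : ∀ n, vonMangoldt.residueClass (1 : ZMod k) n =
      if (n : ZMod k) = 1 then vonMangoldt n else 0 := by
    intro n
    unfold vonMangoldt.residueClass
    rw [Set.indicator_apply]
    rfl
  have hpk : ∑ p ∈ PK k x, Real.log p = ∑ p ∈ PP x, vonMangoldt.residueClass (1 : ZMod k) p := by
    rw [PK, Finset.sum_filter]
    apply Finset.sum_congr rfl
    intro p hp
    simp only [PP, mem_filter, mem_range] at hp
    rw [hres, vonMangoldt_apply_prime hp.2]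
    simp only [class_iff_dvd k p hp.2]
  have hdiff : ∑ n ∈ Icc 1 x, vonMangoldt.residueClass (1 : ZMod k) n - ∑ p ∈ PK k x, Real.log p
      = ∑ n ∈ Icc 1 x \ PP x, vonMangoldt.residueClass (1 : ZMod k) n := by
    rw [hpk, ← Finset.sum_sdiff hsub]; ring
  have hdiff2 : Chebyshev.psi x - Chebyshev.theta x = ∑ n ∈ Icc 1 x \ PP x, vonMangoldt n := by
    rw [hψ, hθ, ← Finset.sum_sdiff hsub]
    have : ∑ p ∈ PP x, vonMangoldt p = ∑ p ∈ PP x, Real.log p := by
      apply Finset.sum_congr rfl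
      intro p hp
      simp only [PP, mem_filter, mem_range] at hp
      exact vonMangoldt_apply_prime hp.2
    rw [this]; ring
  have h3 : 0 ≤ ∑ n ∈ Icc 1 x, vonMangoldt.residueClass (1 : ZMod k) n
      - ∑ p ∈ PK k x, Real.log p := by
    rw [hdiff]
    exact Finset.sum_nonneg fun n _ => vonMangoldt.residueClass_nonneg _ n
  have h4 : ∑ n ∈ Icc 1 x, vonMangoldt.residueClass (1 : ZMod k) n
      - ∑ p ∈ PK k x, Real.log p ≤ Chebyshev.psi x - Chebyshev.theta x := by
    rw [hdiff, hdiff2]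
    exact Finset.sum_le_sum fun n _ => vonMangoldt.residueClass_le _ n
  rw [abs_le]
  constructor <;> linarith

lemma PK_tendsto (k : ℕ) (hk : 1 ≤ k) :
    Tendsto (fun x : ℕ => (#(PK k x) : ℝ) / (Nat.primeCounting x : ℝ)) atTop
      (𝓝 ((k.totient : ℝ)⁻¹)) := by
  have : NeZero k := ⟨by omega⟩
  have hc : Tendsto (fun n : ℕ => (n : ℝ)) atTop atTop := tendsto_natCast_atTop_atTop
  have hπ := (Pool.Agent.Cov.PNT.pi_tendsto).comp hc
  have hθ := (Pool.Agent.Cov.PNT.theta_div_tendsto).comp hc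
  have hψ := (Pool.Agent.Cov.PNT.psi_div_tendsto).comp hc
  have hk := (Pool.Agent.Cov.PNT.pnt_residueClass (q := k) (a := 1) isUnit_one).comp hc
  simp only [Function.comp_def, Nat.floor_natCast] at hπ hθ hψ hk
  have h0 : Tendsto (fun x : ℕ => ((#(PK k x) : ℝ) * Real.log x -
      ∑ n ∈ Icc 1 x, vonMangoldt.residueClass (1 : ZMod k) n) / x) atTop (𝓝 0) := by
    have hb : Tendsto (fun x : ℕ => ((Nat.primeCounting x : ℝ) * Real.log x / x -
        Chebyshev.theta x / x) + (Chebyshev.psi x / x - Chebyshev.theta x / x)) atTop (𝓝 0) := by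
      have := (hπ.sub hθ).add (hψ.sub hθ)
      simpa using this
    refine squeeze_zero_norm' ?_ hb
    filter_upwards [eventually_ge_atTop 1] with x hx
    have hx0 : (0 : ℝ) < x := by exact_mod_cast hx
    rw [Real.norm_eq_abs, abs_div, abs_of_pos hx0, div_le_iff₀ hx0]
    refine (PK_bounds k x).trans (le_of_eq ?_)
    field_simp
    
  have h1 : Tendsto (fun x : ℕ => (#(PK k x) : ℝ) * Real.log x / x) atTop
      (𝓝 ((k.totient : ℝ)⁻¹)) := by
    have := h0.add hk
    rw [zero_add] at this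
    refine this.congr fun x => ?_
    ring
  have h2 := h1.div hπ one_ne_zero
  rw [div_one] at h2
  refine h2.congr' ?_
  filter_upwards [eventually_ge_atTop 2] with x hx
  have hx0 : (0 : ℝ) < x := by
    have : 0 < x := by omega
    exact_mod_cast this
  have hl : Real.log x ≠ 0 := by
    apply ne_of_gt
    apply Real.log_pos
    exact_mod_cast (by omega : 1 < x)
  simp only [Pi.div_apply]
  rw [div_div_div_cancel_right₀ hx0.ne', mul_div_mul_right _ _ hl]

lemma gL_eq (L n : ℕ) (hn : n ≠ 0) :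
    gL L n = ∑ K ∈ (PP L).powerset, (∏ l ∈ K, (-(1 / (l : ℝ)))) *
      (if (∏ l ∈ K, l) ∣ n then 1 else 0) := by
  classical
  have h1 : gL L n = ∏ l ∈ PP L, ((if l ∣ n then -(1 / (l : ℝ)) else 0) + 1) := by
    unfold gL
    have : n.primeFactors.filter (fun l => l ≤ L) = (PP L).filter (fun l => l ∣ n) := by
      ext l
      simp only [PP, mem_filter, Nat.mem_primeFactors, mem_range]
      constructor
      · rintro ⟨⟨h1, h2, h3⟩, h4⟩; exact ⟨⟨by omega, h1⟩, h2⟩
      · rintro ⟨⟨h1, h2⟩, h3⟩; exact ⟨⟨h2, h3, hn⟩, by omega⟩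
    rw [this, Finset.prod_filter]
    apply Finset.prod_congr rfl
    intro l _
    split_ifs
    · ring
    · ring
  rw [h1, Finset.prod_add]
  apply Finset.sum_congr rfl
  intro K hK
  rw [Finset.mem_powerset] at hK
  rw [Finset.prod_const_one, mul_one]
  have hprime : ∀ l ∈ K, l.Prime := fun l hl => (Finset.mem_filter.mp (hK hl)).2
  by_cases hall : ∀ l ∈ K, l ∣ n
  · have : (∏ l ∈ K, l) ∣ n := by
      apply Finset.prod_primes_dvd
      · intro l hl; exact (hprime l hl).prime
      · exact hall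
    rw [if_pos this, mul_one]
    apply Finset.prod_congr rfl
    intro l hl
    rw [if_pos (hall l hl)]
  · have h2 : ¬ (∏ l ∈ K, l) ∣ n := by
      intro h
      apply hall
      intro l hl
      exact (Finset.dvd_prod_of_mem _ hl).trans h
    rw [if_neg h2, mul_zero]
    push Not at hall
    obtain ⟨l, hl, hln⟩ := hall
    apply Finset.prod_eq_zero hl
    rw [if_neg hln]

lemma totient_prod (K : Finset ℕ) (hK : ∀ l ∈ K, l.Prime) :
    ((∏ l ∈ K, l).totient : ℝ) = ∏ l ∈ K, ((l : ℝ) - 1) := by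
  classical
  induction K using Finset.induction_on with
  | empty => simp
  | insert a s ha ih =>
    rw [Finset.prod_insert ha, Finset.prod_insert ha]
    have hcop : Nat.Coprime a (∏ l ∈ s, l) := by
      apply Nat.Coprime.prod_right
      intro l hl
      rw [Nat.coprime_primes (hK a (Finset.mem_insert_self _ _)) (hK l (Finset.mem_insert_of_mem hl))]
      rintro rfl; exact ha hl
    rw [Nat.totient_mul hcop, Nat.totient_prime (hK a (Finset.mem_insert_self _ _))]
    push_cast [Nat.cast_sub (hK a (Finset.mem_insert_self _ _)).one_lt.le]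
    rw [ih fun l hl => hK l (Finset.mem_insert_of_mem hl)]

theorem sumG : SumG := by
  classical
  intro L
  have h1 : ∀ x : ℕ, (∑ p ∈ PP x, gL L (p - 1)) / (Nat.primeCounting x : ℝ) =
      ∑ K ∈ (PP L).powerset, (∏ l ∈ K, (-(1 / (l : ℝ)))) *
        ((#(PK (∏ l ∈ K, l) x) : ℝ) / (Nat.primeCounting x : ℝ)) := by
    intro x
    have : ∑ p ∈ PP x, gL L (p - 1) = ∑ K ∈ (PP L).powerset, (∏ l ∈ K, (-(1 / (l : ℝ)))) *
        (#(PK (∏ l ∈ K, l) x) : ℝ) := by
      rw [Finset.sum_congr rfl (fun p hp => gL_eq L (p - 1) (by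
        simp only [PP, mem_filter, mem_range] at hp
        have := hp.2.two_le
        omega)), Finset.sum_comm]
      apply Finset.sum_congr rfl
      intro K _
      rw [← Finset.mul_sum]
      congr 1
      rw [PK, Finset.card_filter]
      push_cast
      rfl
    rw [this, Finset.sum_div]
    apply Finset.sum_congr rfl
    intro K _
    rw [mul_div_assoc]
  simp_rw [h1]
  have h2 : artinL L = ∑ K ∈ (PP L).powerset, (∏ l ∈ K, (-(1 / (l : ℝ)))) *
      (((∏ l ∈ K, l).totient : ℝ)⁻¹) := by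
    unfold artinL
    have : ∏ l ∈ PP L, (1 - 1 / ((l : ℝ) * ((l : ℝ) - 1))) =
        ∏ l ∈ PP L, (-(1 / ((l : ℝ) * ((l : ℝ) - 1))) + 1) := by
      apply Finset.prod_congr rfl
      intro l _; ring
    rw [this, Finset.prod_add]
    apply Finset.sum_congr rfl
    intro K hK
    rw [Finset.mem_powerset] at hK
    have hprime : ∀ l ∈ K, l.Prime := fun l hl => (Finset.mem_filter.mp (hK hl)).2
    rw [Finset.prod_const_one, mul_one, totient_prod K hprime, ← Finset.prod_inv_distrib,
      ← Finset.prod_mul_distrib]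
    apply Finset.prod_congr rfl
    intro l hl
    rw [one_div, mul_inv]
    ring
  rw [h2]
  apply tendsto_finsetSum
  intro K hK
  rw [Finset.mem_powerset] at hK
  have hprime : ∀ l ∈ K, l.Prime := fun l hl => (Finset.mem_filter.mp (hK hl)).2
  apply Tendsto.const_mul
  apply PK_tendsto
  exact Nat.pos_of_ne_zero (Finset.prod_ne_zero_iff.mpr fun l hl => (hprime l hl).ne_zero)

end Pool.Agent.H386R2.Artin
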