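import Mathlib
import Pool.Agent.H386R2.Artin.Stubs
import Pool.Agent.Helper923.PPS.BT

/-!
# T5: the average of `hL` over shifted primes (helper143)
-/

namespace Pool.Agent.H386R2.Artin

open Finset Filter Topology

namespace SH

/-- the primes `p ≤ x` with `l ∣ p - 1` -/
def A (x l : ℕ) : Finset ℕ := (PP x).filter (fun p => l ∣ p - 1)

lemma mem_PP {x p : ℕ} : p ∈ PP x ↔ p ≤ x ∧ p.Prime := by
  simp [PP]

lemma swap (x L : ℕ) : ∑ p ∈ PP x, hL L (p - 1) =
    ∑ l ∈ (PP x).filter (fun l => L < l), ((A x l).card : ℝ) * (1 / (l : ℝ)) := by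
  have h1 : ∀ p ∈ PP x, hL L (p - 1) =
      ∑ l ∈ ((PP x).filter (fun l => L < l)), if l ∣ p - 1 then 1 / (l : ℝ) else 0 := by
    intro p hp
    rw [← Finset.sum_filter]
    unfold hL
    apply Finset.sum_congr _ (fun _ _ => rfl)
    obtain ⟨hpx, hpp⟩ := mem_PP.1 hp
    have hp2 := hpp.two_le
    ext l
    simp only [Finset.mem_filter, Nat.mem_primeFactors, mem_PP]
    constructor
    · rintro ⟨⟨h1, h2, h3⟩, h4⟩
      exact ⟨⟨⟨(Nat.le_of_dvd (by omega) h2).trans (by omega), h1⟩, h4⟩, h2⟩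
    · rintro ⟨⟨⟨h1, h2⟩, h3⟩, h4⟩
      exact ⟨⟨h2, h4, by omega⟩, h3⟩
  rw [Finset.sum_congr rfl h1, Finset.sum_comm]
  apply Finset.sum_congr rfl
  intro l _
  rw [← Finset.sum_filter, Finset.sum_const, nsmul_eq_mul]
  rfl

lemma card_triv {x l : ℕ} (hl : 0 < l) : (A x l).card ≤ x / l := by
  have h : (A x l).card ≤ (Finset.Icc 1 (x / l)).card := by
    apply Finset.card_le_card_of_injOn (fun p => (p - 1) / l)
    · intro p hp
      obtain ⟨hp1, hp2⟩ := Finset.mem_filter.1 (Finset.mem_coe.1 hp)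
      obtain ⟨hpx, hpp⟩ := mem_PP.1 hp1
      have := hpp.two_le
      simp only [Finset.coe_Icc, Set.mem_Icc]
      refine ⟨?_, Nat.div_le_div_right (by omega)⟩
      rw [Nat.one_le_div_iff hl]
      exact Nat.le_of_dvd (by omega) hp2
    · intro p hp p' hp' h
      obtain ⟨hp1, hp2⟩ := Finset.mem_filter.1 (Finset.mem_coe.1 hp)
      obtain ⟨hpx, hpp⟩ := mem_PP.1 hp1
      obtain ⟨hp1', hp2'⟩ := Finset.mem_filter.1 (Finset.mem_coe.1 hp')
      obtain ⟨hpx', hpp'⟩ := mem_PP.1 hp1'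
      have := hpp.two_le
      have := hpp'.two_le
      have h3 : p - 1 = p' - 1 := by
        rw [← Nat.div_mul_cancel hp2, ← Nat.div_mul_cancel hp2']
        simp only at h
        rw [h]
      omega
  simpa using h

lemma card_bt {x l : ℕ} (_hl : 0 < l) : (A x l).card ≤
    ((Finset.range (x / l + 1)).filter (fun k => (1 + k * l).Prime)).card := by
  apply Finset.card_le_card_of_injOn (fun p => (p - 1) / l)
  · intro p hp
    obtain ⟨hp1, hp2⟩ := Finset.mem_filter.1 (Finset.mem_coe.1 hp)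
    obtain ⟨hpx, hpp⟩ := mem_PP.1 hp1
    have h2 := hpp.two_le
    rw [Finset.mem_coe, Finset.mem_filter, Finset.mem_range]
    refine ⟨Nat.lt_succ_of_le (Nat.div_le_div_right (by omega)), ?_⟩
    rw [Nat.div_mul_cancel hp2]
    have : 1 + (p - 1) = p := by omega
    rwa [this]
  · intro p hp p' hp' h
    obtain ⟨hp1, hp2⟩ := Finset.mem_filter.1 (Finset.mem_coe.1 hp)
    obtain ⟨hpx, hpp⟩ := mem_PP.1 hp1
    obtain ⟨hp1', hp2'⟩ := Finset.mem_filter.1 (Finset.mem_coe.1 hp')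
    obtain ⟨hpx', hpp'⟩ := mem_PP.1 hp1'
    have := hpp.two_le
    have := hpp'.two_le
    have h3 : p - 1 = p' - 1 := by
      rw [← Nat.div_mul_cancel hp2, ← Nat.div_mul_cancel hp2']
      simp only at h
      rw [h]
    omega

lemma term_bt {C : ℝ} (hC : 1 ≤ C) (hbt : ∀ (a q N : ℕ), 2 ≤ N → (q = 1 ∨ q.Prime) →
    (((Finset.range N).filter (fun k => (a + k * q).Prime)).card : ℝ) ≤ C * N / Real.log N)
    {x l : ℕ} (hl : l.Prime) (hlx : l ^ 2 ≤ x) :
    ((A x l).card : ℝ) * (1 / (l : ℝ)) ≤ 4 * C * (x / Real.log x) * (1 / (l : ℝ) ^ 2) := by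
  have hl2 := hl.two_le
  have hl0 : (0 : ℝ) < l := by exact_mod_cast hl.pos
  have hlx' : (l : ℝ) ^ 2 ≤ x := by exact_mod_cast hlx
  have hx4 : (4 : ℝ) ≤ x := by
    have : (2 : ℝ) ≤ l := by exact_mod_cast hl2
    nlinarith
  have hlogx : 0 < Real.log x := Real.log_pos (by linarith)
  set N := x / l + 1 with hN
  have hN2 : 2 ≤ N := by
    have : 1 ≤ x / l := by
      rw [Nat.one_le_div_iff hl.pos]
      nlinarith
    omega
  have h1 : ((A x l).card : ℝ) ≤ C * N / Real.log N := by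
    refine le_trans ?_ (hbt 1 l N hN2 (Or.inr hl))
    exact_mod_cast card_bt hl.pos
  have h2 : (x : ℝ) / l ≤ N := by
    rw [div_le_iff₀ hl0]
    have h3 : x < (x / l + 1) * l := by
      have := Nat.lt_div_mul_add (a := x) hl.pos
      nlinarith
    have h4 : (x : ℝ) < ((x / l + 1 : ℕ) : ℝ) * l := by exact_mod_cast h3
    exact h4.le
  have h3 : (N : ℝ) ≤ 2 * (x / l) := by
    have h4 : ((x / l : ℕ) : ℝ) ≤ x / l := Nat.cast_div_le
    have h5 : (1 : ℝ) ≤ x / l := by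
      rw [le_div_iff₀ hl0]
      nlinarith [show (2 : ℝ) ≤ l by exact_mod_cast hl2]
    rw [hN]
    push_cast
    linarith
  have h4 : Real.log x / 2 ≤ Real.log N := by
    have h5 : Real.log x / 2 = Real.log (√x) := by rw [Real.log_sqrt (by linarith)]
    rw [h5]
    apply Real.log_le_log (Real.sqrt_pos.2 (by linarith))
    refine le_trans ?_ h2
    rw [le_div_iff₀ hl0]
    have h6 : (l : ℝ) ≤ √x := Real.le_sqrt_of_sq_le hlx'
    have h7 : √(x : ℝ) * √(x : ℝ) = x := Real.mul_self_sqrt (by linarith)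
    nlinarith [Real.sqrt_nonneg (x : ℝ)]
  have h5 : C * N / Real.log N ≤ C * (2 * (x / l)) / (Real.log x / 2) := by
    have : 0 < Real.log x / 2 := by positivity
    gcongr
  have h6 : C * (2 * (x / l)) / (Real.log x / 2) * (1 / (l : ℝ)) =
      4 * C * (x / Real.log x) * (1 / (l : ℝ) ^ 2) := by
    field_simp
    ring
  rw [← h6]
  have := h1.trans h5
  gcongr

lemma term_triv {x l : ℕ} (hl : 0 < l) :
    ((A x l).card : ℝ) * (1 / (l : ℝ)) ≤ x * (1 / (l : ℝ) ^ 2) := by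
  have hl0 : (0 : ℝ) < l := by exact_mod_cast hl
  have h1 : ((A x l).card : ℝ) ≤ x / l := by
    refine le_trans ?_ (Nat.cast_div_le (m := x) (n := l))
    exact_mod_cast card_triv hl
  calc ((A x l).card : ℝ) * (1 / (l : ℝ)) ≤ x / l * (1 / (l : ℝ)) := by gcongr
    _ = x * (1 / (l : ℝ) ^ 2) := by
        field_simp

/-- tails of `∑ 1/l²` -/
lemma tail (m : ℕ) (hm : 0 < m) (S : Finset ℕ) (hS : ∀ l ∈ S, m < l) :
    ∑ l ∈ S, 1 / (l : ℝ) ^ 2 ≤ 1 / (m : ℝ) := by
  have hm0 : (0 : ℝ) < m := by exact_mod_cast hm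
  obtain ⟨M, hM⟩ := S.exists_nat_subset_range
  have h1 : ∑ l ∈ S, 1 / (l : ℝ) ^ 2 ≤ ∑ l ∈ Finset.Ico (m + 1) (max M (m + 1)), 1 / (l : ℝ) ^ 2 := by
    apply Finset.sum_le_sum_of_subset_of_nonneg
    · intro l hl
      have h2 := hS l hl
      have h3 := Finset.mem_range.1 (hM hl)
      rw [Finset.mem_Ico]
      exact ⟨h2, lt_max_of_lt_left h3⟩
    · intro i _ _
      positivity
  refine h1.trans ?_
  have key : ∀ K : ℕ, m + 1 ≤ K → ∑ l ∈ Finset.Ico (m + 1) K, 1 / (l : ℝ) ^ 2 ≤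
      1 / m - 1 / ((K : ℝ) - 1) := by
    intro K hK
    induction K, hK using Nat.le_induction with
    | base =>
      simp
    | succ K hK ih =>
      rw [Finset.sum_Ico_succ_top hK]
      have hK1 : (m : ℝ) + 1 ≤ K := by exact_mod_cast hK
      have hK0 : (0 : ℝ) < (K : ℝ) - 1 := by linarith
      have h2 : 1 / (K : ℝ) ^ 2 ≤ 1 / ((K : ℝ) - 1) - 1 / (((K + 1 : ℕ) : ℝ) - 1) := by
        push_cast
        rw [add_sub_cancel_right, div_sub_div _ _ hK0.ne' (by linarith),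
          div_le_div_iff₀ (by nlinarith) (by nlinarith)]
        nlinarith
      linarith
  have h2 := key (max M (m + 1)) (le_max_right _ _)
  refine h2.trans ?_
  have h3 : (m : ℝ) + 1 ≤ ((max M (m + 1) : ℕ) : ℝ) := by exact_mod_cast le_max_right M (m + 1)
  have h4 : 0 ≤ 1 / (((max M (m + 1) : ℕ) : ℝ) - 1) := by
    apply div_nonneg zero_le_one
    linarith
  linarith

lemma pi_lower : ∀ᶠ x : ℕ in atTop, (x : ℝ) / (2 * Real.log x) ≤ (Nat.primeCounting x : ℝ) := by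
  have h1 : ∀ᶠ x : ℝ in atTop, Real.log x ≤ (1 / 20) * x := by
    have := Real.isLittleO_log_id_atTop.bound (show (0 : ℝ) < 1 / 20 by norm_num)
    filter_upwards [this, eventually_ge_atTop (1 : ℝ)] with x hx hx1
    simp only [id, Real.norm_eq_abs] at hx
    rw [abs_of_nonneg (by linarith : (0 : ℝ) ≤ x)] at hx
    exact (le_abs_self _).trans hx
  have h2 : Tendsto (fun x : ℕ => (x : ℝ) + 1) atTop atTop :=
    tendsto_natCast_atTop_atTop.atTop_add tendsto_const_nhds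
  filter_upwards [h2.eventually h1, eventually_ge_atTop 3] with x hx hx3
  have hx3' : (3 : ℝ) ≤ x := by exact_mod_cast hx3
  refine le_trans ?_ (Chebyshev.pi_ge x)
  have hlog : 0 < Real.log x := Real.log_pos (by linarith)
  have h3 : (x : ℝ) / (2 * Real.log x) = (x / 2) / Real.log x := by
    field_simp
  rw [h3]
  apply div_le_div_of_nonneg_right _ hlog.le
  have := Real.log_two_gt_d9
  nlinarith

lemma sqrt_small (L : ℕ) : ∀ᶠ x : ℕ in atTop, 2 * √(x : ℝ) * L ≤ x / (2 * Real.log x) := by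
  have h0 : Tendsto (fun x : ℕ => (x : ℝ)) atTop atTop := tendsto_natCast_atTop_atTop
  have h1 : ∀ᶠ x : ℝ in atTop, Real.log x ≤ (1 / (4 * L + 1)) * x ^ (1 / 2 : ℝ) := by
    have := (isLittleO_log_rpow_atTop (show (0 : ℝ) < 1 / 2 by norm_num)).bound
      (show (0 : ℝ) < 1 / (4 * L + 1) by positivity)
    filter_upwards [this, eventually_ge_atTop (1 : ℝ)] with x hx hx1
    simp only [Real.norm_eq_abs] at hx
    rw [abs_of_nonneg (by positivity : (0 : ℝ) ≤ x ^ (1 / 2 : ℝ))] at hx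
    exact (le_abs_self _).trans hx
  filter_upwards [h0.eventually h1, eventually_ge_atTop 3] with x hx hx3
  have hx3' : (3 : ℝ) ≤ x := by exact_mod_cast hx3
  have hlog : 0 < Real.log x := Real.log_pos (by linarith)
  rw [← Real.sqrt_eq_rpow, one_div, inv_mul_eq_div, le_div_iff₀ (by positivity)] at hx
  rw [le_div_iff₀ (by positivity)]
  have h2 : √(x : ℝ) * √(x : ℝ) = x := Real.mul_self_sqrt (by linarith)
  have h3 := Real.sqrt_nonneg (x : ℝ)
  nlinarith

end SH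

open SH in
/-- T5: the average of `hL` over shifted primes -/
theorem sumH : SumH := by
  obtain ⟨C, hC, hbt⟩ := Helper923.PPS.brun_titchmarsh
  refine ⟨8 * C + 1, by linarith, ?_⟩
  intro L hL
  have hL0 : (0 : ℝ) < L := by exact_mod_cast hL
  obtain ⟨x₀, hx₀⟩ := eventually_atTop.1 ((pi_lower.and (sqrt_small L)).and
    (eventually_ge_atTop 16))
  refine ⟨x₀, fun x hx => ?_⟩
  obtain ⟨⟨h1, h2⟩, h3⟩ := hx₀ x hx
  have hx16 : (16 : ℝ) ≤ x := by exact_mod_cast h3
  have hlog : 0 < Real.log x := Real.log_pos (by linarith)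
  rw [swap, ← Finset.sum_filter_add_sum_filter_not _ (fun l => l ^ 2 ≤ x)]
  have ha : ∑ l ∈ ((PP x).filter (fun l => L < l)).filter (fun l => l ^ 2 ≤ x),
      ((A x l).card : ℝ) * (1 / (l : ℝ)) ≤ 4 * C * (x / Real.log x) * (1 / L) := by
    have hb : ∑ l ∈ ((PP x).filter (fun l => L < l)).filter (fun l => l ^ 2 ≤ x),
        ((A x l).card : ℝ) * (1 / (l : ℝ)) ≤
        ∑ l ∈ ((PP x).filter (fun l => L < l)).filter (fun l => l ^ 2 ≤ x),
          4 * C * (x / Real.log x) * (1 / (l : ℝ) ^ 2) := by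
      refine Finset.sum_le_sum fun l hl => ?_
      obtain ⟨hl1, hl2⟩ := Finset.mem_filter.1 hl
      obtain ⟨hl3, hl4⟩ := Finset.mem_filter.1 hl1
      exact term_bt hC hbt (mem_PP.1 hl3).2 hl2
    refine hb.trans ?_
    rw [← Finset.mul_sum]
    apply mul_le_mul_of_nonneg_left _ (by positivity)
    apply tail L hL
    intro l hl
    obtain ⟨hl1, hl2⟩ := Finset.mem_filter.1 hl
    exact (Finset.mem_filter.1 hl1).2
  have hc : ∑ l ∈ ((PP x).filter (fun l => L < l)).filter (fun l => ¬ l ^ 2 ≤ x),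
      ((A x l).card : ℝ) * (1 / (l : ℝ)) ≤ 2 * √(x : ℝ) := by
    have hb : ∑ l ∈ ((PP x).filter (fun l => L < l)).filter (fun l => ¬ l ^ 2 ≤ x),
        ((A x l).card : ℝ) * (1 / (l : ℝ)) ≤
        ∑ l ∈ ((PP x).filter (fun l => L < l)).filter (fun l => ¬ l ^ 2 ≤ x),
          x * (1 / (l : ℝ) ^ 2) := by
      refine Finset.sum_le_sum fun l hl => ?_
      obtain ⟨hl1, hl2⟩ := Finset.mem_filter.1 hl
      obtain ⟨hl3, hl4⟩ := Finset.mem_filter.1 hl1
      exact term_triv (mem_PP.1 hl3).2.pos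
    refine hb.trans ?_
    rw [← Finset.mul_sum]
    have hs4 : 4 ≤ Nat.sqrt x := by
      rw [Nat.le_sqrt]
      omega
    have h4 : ∑ l ∈ ((PP x).filter (fun l => L < l)).filter (fun l => ¬ l ^ 2 ≤ x),
        1 / (l : ℝ) ^ 2 ≤ 1 / (Nat.sqrt x : ℝ) := by
      apply tail (Nat.sqrt x) (by omega)
      intro l hl
      obtain ⟨hl1, hl2⟩ := Finset.mem_filter.1 hl
      rw [Nat.sqrt_lt]
      rw [pow_two] at hl2
      omega
    have hs4' : (4 : ℝ) ≤ (Nat.sqrt x : ℝ) := by exact_mod_cast hs4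
    have h5 : √(x : ℝ) ≤ 2 * (Nat.sqrt x : ℝ) := by
      rw [Real.sqrt_le_left (by linarith)]
      have h6 : x < (Nat.sqrt x + 1) * (Nat.sqrt x + 1) := Nat.lt_succ_sqrt x
      have h7 : (x : ℝ) < ((Nat.sqrt x : ℝ) + 1) * ((Nat.sqrt x : ℝ) + 1) := by exact_mod_cast h6
      nlinarith
    have h6 : (x : ℝ) * (1 / (Nat.sqrt x : ℝ)) ≤ 2 * √(x : ℝ) := by
      rw [mul_one_div, div_le_iff₀ (by linarith)]
      have h7 : √(x : ℝ) * √(x : ℝ) = x := Real.mul_self_sqrt (by linarith)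
      nlinarith [Real.sqrt_nonneg (x : ℝ)]
    refine le_trans ?_ h6
    exact mul_le_mul_of_nonneg_left h4 (by linarith)
  have hd : 2 * √(x : ℝ) ≤ 1 / L * (Nat.primeCounting x : ℝ) := by
    rw [one_div, inv_mul_eq_div, le_div_iff₀ hL0]
    exact h2.trans h1
  have he : 4 * C * (x / Real.log x) * (1 / L) ≤ 8 * C / L * (Nat.primeCounting x : ℝ) := by
    have h4 : 4 * C * (x / Real.log x) * (1 / L) = 8 * C / L * (x / (2 * Real.log x)) := by
      field_simp
      ring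
    rw [h4]
    gcongr
  have hf : (8 * C + 1) / L * (Nat.primeCounting x : ℝ) =
      8 * C / L * (Nat.primeCounting x : ℝ) + 1 / L * (Nat.primeCounting x : ℝ) := by
    ring
  rw [hf]
  linarith

end Pool.Agent.H386R2.Artin
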