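import Mathlib
import Pool.Agent.H386R2.Artin.Primes
import Pool.Agent.H386R2.Artin.BadCount
import Pool.Agent.H386R2.Artin.LocalCount
import Pool.Agent.H386R2.Artin.SumG
import Pool.Agent.H386R2.Artin.SumH
import Pool.Agent.H386R2.Artin.OmegaLarge
import Pool.Agent.H386R2.Artin.ArtinLim
import Pool.Agent.H386R2.Artin.SmoothFew

/-! Artin's conjecture for almost all primes and almost all integers in short ranges. -/

namespace Pool.Agent.H386R2.Artin

theorem average_holds : Average :=
  average (fewBad badCount) localCount sumG sumH omegaLarge artinLim

theorem primes_holds : PrimesResult' := primes average_holds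

theorem integers_holds : IntegersResult' := integers_clean primes_holds smoothFew

end Pool.Agent.H386R2.Artin
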