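import Mathlib
import Pool.Agent.H386R2.Artin.Defs

/-! Statements for the square-class version `n = D m²` (idea: helper251, helper385). -/

namespace Pool.Agent.H386R2.Artin

open Finset Filter Topology

/-- the density predicted for squarefree part `D ≡ 1 mod 4` -/
noncomputable def corrC (D : ℤ) : ℝ :=
  (1 - ((ArithmeticFunction.moebius D.natAbs : ℤ) : ℝ) *
    ∏ q ∈ D.natAbs.primeFactors, (1 / ((q : ℝ) ^ 2 - (q : ℝ) - 1))) * artinC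

/-- the same with Artin's constant truncated at `L` -/
noncomputable def corrL (D : ℤ) (L : ℕ) : ℝ :=
  (1 - ((ArithmeticFunction.moebius D.natAbs : ℤ) : ℝ) *
    ∏ q ∈ D.natAbs.primeFactors, (1 / ((q : ℝ) ^ 2 - (q : ℝ) - 1))) * artinL L

/-- S1: local count in a square class -/
def LocalCountSq : Prop := ∀ (p : ℕ) [Fact p.Prime], p ≠ 2 → ∀ (E : Finset ℕ) (M : ℝ) (m : ℤ) (L : ℕ),
  2 ≤ L → (∀ q ∈ E, q.Prime) → 0 ≤ M → Good E M p → ¬ (p : ℤ) ∣ m →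
    |(#(E.filter (fun q : ℕ => orderOf ((m * (q : ℤ) ^ 2 : ℤ) : ZMod p) = p - 1)) : ℝ) -
        #E * ((1 - (legendreSym p m : ℝ)) * gL L (p - 1))| ≤
      2 + 2 ^ L * M + #E * hL L (p - 1) + (p - 1).primeFactors.card * M

open Classical in
/-- the Legendre symbol `(D/p)` as a real number, `0` if `p` is not prime -/
noncomputable def leg (D : ℤ) (p : ℕ) : ℝ :=
  if h : p.Prime then ((@legendreSym p ⟨h⟩ D : ℤ) : ℝ) else 0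

/-- S2: average of `(1 - (D/p)) g_L(p-1)` over the primes -/
def SumGD : Prop := ∀ D : ℤ, D ≠ 1 → Squarefree D → D % 4 = 1 → ∀ L : ℕ, D.natAbs ≤ L → 2 ≤ L →
  Tendsto (fun x : ℕ => (∑ p ∈ PP x, (1 - leg D p) * gL L (p - 1)) /
    (Nat.primeCounting x : ℝ)) atTop (𝓝 (corrL D L))

/-- S5: average over an arbitrary dense set of primes, in a square class -/
def AverageSq : Prop := ∀ D : ℤ, D ≠ 1 → Squarefree D → D % 4 = 1 →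
  ∀ δ : ℝ, 0 < δ → δ ≤ 1 → ∃ c : ℝ, 0 < c ∧ ∀ ε : ℝ, 0 < ε → ∃ x₀ : ℕ,
  ∀ x : ℕ, x₀ ≤ x → ∀ y : ℕ, (Real.log x) ^ (2 + δ) ≤ (y : ℝ) → y ≤ x →
    ∀ E : Finset ℕ, (∀ q ∈ E, q.Prime ∧ q ≤ y) →
      (Nat.primeCounting y : ℝ) / (Real.log x) ^ c ≤ #E →
        ∀ m : ℤ, m ≠ 0 → Real.log |(m : ℝ)| ≤ √x →
          |∑ q ∈ E, (NA (D * (m * (q : ℤ)) ^ 2) x : ℝ) - corrC D * Nat.primeCounting x * #E| ≤
            ε * Nat.primeCounting x * #E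

open Classical in
/-- S6: almost all primes -/
def PrimesSq : Prop := ∀ D : ℤ, D ≠ 1 → Squarefree D → D % 4 = 1 →
  ∀ δ : ℝ, 0 < δ → ∃ c : ℝ, 0 < c ∧ ∀ ε : ℝ, 0 < ε → ∃ x₀ : ℕ,
  ∀ x : ℕ, x₀ ≤ x → ∀ y : ℕ, (Real.log x) ^ (2 + δ) ≤ (y : ℝ) → y ≤ x →
    ∀ m : ℤ, m ≠ 0 → Real.log |(m : ℝ)| ≤ √x →
      (#((PP y).filter (fun q : ℕ => ε < |(NA (D * (m * (q : ℤ)) ^ 2) x : ℝ) /
        Nat.primeCounting x - corrC D|)) : ℝ) ≤ (Nat.primeCounting y : ℝ) / (Real.log x) ^ c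

open Classical in
/-- S9: almost all integers -/
def IntegersSq : Prop := ∀ D : ℤ, D ≠ 1 → Squarefree D → D % 4 = 1 →
  ∀ ε : ℝ, 0 < ε → ∃ C : ℝ, 0 < C ∧ ∃ x₀ : ℕ,
  ∀ x : ℕ, x₀ ≤ x → ∀ N : ℕ, (Real.log x) ^ C ≤ (N : ℝ) → N ≤ x →
      (#((Icc 1 N).filter (fun a : ℕ => ε < |(NA (D * (a : ℤ) ^ 2) x : ℝ) /
        Nat.primeCounting x - corrC D|)) : ℝ) ≤ ε * N

end Pool.Agent.H386R2.Artin
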